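import Pool.Agent.Mader.Color

set_option autoImplicit false

namespace Pool.Agent.Mader

open Relation

variable {V : Type*}

/-- **Main induction.**  `Q ⊆ S`, every vertex of `S` is reachable from `Q` inside `S`, every
nonempty accessible set has a vertex with at most one out-neighbour inside, and all
out-neighbourhoods are acyclic.  Then `S` has an acyclic colouring with three colours in which
the colour `2` is not used on `Q`. -/
theorem main_ind [Finite V] (E : V → V → Prop) (hloop : ∀ p, ¬ E p p) :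
    ∀ (n : ℕ) (S Q : Set V), S.ncard = n → Q ⊆ S →
      (∀ v ∈ S, ∃ q ∈ Q, ReflTransGen (Res E S) q v) →
      (∀ X ⊆ S, X.Nonempty →
        (∀ v ∈ X, ∃ q ∈ Q, ReflTransGen (fun p q => Res E S p q ∧ p ∉ X) q v) →
        ∃ v ∈ X, ∀ w₁ ∈ X, ∀ w₂ ∈ X, E v w₁ → E v w₂ → w₁ = w₂) →
      (∀ v ∈ S, ∀ u, ¬ TransGen (Res E {w | w ∈ S ∧ E v w}) u u) →
      ∃ f : V → Fin 3, (∀ q ∈ Q, f q ≠ 2) ∧
        ∀ u, ¬ TransGen (fun p q => Res E S p q ∧ f p = f q) u u := by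
  classical
  intro n
  induction n using Nat.strong_induction_on with
  | _ n ih =>
  intro S Q hn hQS h1 h2 h3
  by_cases hS : S = ∅
  · refine ⟨fun _ => 0, fun q _ => (by decide : (0 : Fin 3) ≠ 2), ?_⟩
    intro u hu
    obtain ⟨c, hc, _⟩ := TransGen.head'_iff.1 hu
    have := hc.1.2.1
    rw [hS] at this
    exact this
  obtain ⟨v0, hv0⟩ := Set.nonempty_iff_ne_empty.2 hS
  obtain ⟨q0, hq0, _⟩ := h1 v0 hv0
  obtain ⟨q, hq, hq'⟩ := h2 Q hQS ⟨q0, hq0⟩ (fun v hv => ⟨v, hv, ReflTransGen.refl⟩)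
  set Ch : Set V := {w | w ∈ S ∧ E q w ∧ w ∉ Q} with hCh
  set S' : Set V := {w | w ∈ S ∧ w ≠ q ∧ w ∉ Ch} with hS'
  set Q' : Set V := {w | w ∈ S' ∧ (w ∈ Q ∨ ∃ c ∈ Ch, E c w)} with hQ'
  have hS'S : S' ⊆ S := fun w hw => hw.1
  have hlt : S'.ncard < S.ncard := by
    apply Set.ncard_lt_ncard _ (Set.toFinite _)
    exact ⟨hS'S, fun h => (h (hQS hq)).2.1 rfl⟩
  have h1' : ∀ v ∈ S', ∃ q ∈ Q', ReflTransGen (Res E S') q v := by
    intro v hv
    have key : ∀ u, ReflTransGen (Res E S) u v → (∃ q ∈ Q', ReflTransGen (Res E S') q v) ∨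
        (u ∈ S' ∧ ReflTransGen (Res E S') u v) := by
      intro u hu
      induction hu using ReflTransGen.head_induction_on with
      | refl => exact Or.inr ⟨hv, ReflTransGen.refl⟩
      | @head a c hac _ ih =>
        rcases ih with ih | ⟨hcS, ih⟩
        · exact Or.inl ih
        · by_cases haS : a ∈ S'
          · exact Or.inr ⟨haS, ReflTransGen.head ⟨hac.1, haS, hcS⟩ ih⟩
          · left
            refine ⟨c, ⟨hcS, ?_⟩, ih⟩
            by_cases haC : a ∈ Ch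
            · exact Or.inr ⟨a, haC, hac.1⟩
            · left
              have haq : a = q := by
                by_contra hne
                exact haS ⟨hac.2.1, hne, haC⟩
              by_contra hcQ
              exact hcS.2.2 ⟨hcS.1, haq ▸ hac.1, hcQ⟩
    obtain ⟨q1, hq1, hr⟩ := h1 v hv.1
    rcases key q1 hr with h | ⟨h, h'⟩
    · exact h
    · exact ⟨q1, ⟨h, Or.inl hq1⟩, h'⟩
  have h2' : ∀ X ⊆ S', X.Nonempty →
      (∀ v ∈ X, ∃ q ∈ Q', ReflTransGen (fun p q => Res E S' p q ∧ p ∉ X) q v) →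
      ∃ v ∈ X, ∀ w₁ ∈ X, ∀ w₂ ∈ X, E v w₁ → E v w₂ → w₁ = w₂ := by
    intro X hX hne hacc
    apply h2 X (hX.trans hS'S) hne
    intro v hv
    obtain ⟨s, hs, hr⟩ := hacc v hv
    have hr' : ReflTransGen (fun p q => Res E S p q ∧ p ∉ X) s v :=
      ReflTransGen.mono (fun a b hab => ⟨⟨hab.1.1, hS'S hab.1.2.1, hS'S hab.1.2.2⟩, hab.2⟩) _ _ hr
    rcases hs.2 with hsQ | ⟨c, hc, hcs⟩
    · exact ⟨s, hsQ, hr'⟩
    · refine ⟨q, hq, ?_⟩
      exact ReflTransGen.head ⟨⟨hc.2.1, hQS hq, hc.1⟩, fun h => (hX h).2.1 rfl⟩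
        (ReflTransGen.head ⟨⟨hcs, hc.1, hS'S hs.1⟩, fun h => (hX h).2.2 hc⟩ hr')
  have h3' : ∀ v ∈ S', ∀ u, ¬ TransGen (Res E {w | w ∈ S' ∧ E v w}) u u := by
    intro v hv u hu
    refine h3 v hv.1 u (TransGen.mono ?_ _ _ hu)
    exact fun a b hab => ⟨hab.1, ⟨hS'S hab.2.1.1, hab.2.1.2⟩, ⟨hS'S hab.2.2.1, hab.2.2.2⟩⟩
  obtain ⟨f, hfQ, hf⟩ := ih S'.ncard (by omega) S' Q' rfl (fun w hw => hw.1) h1' h2' h3'
  obtain ⟨c0, hc0, hc0'⟩ : ∃ c0 : Fin 3, c0 ≠ 2 ∧ ∀ h ∈ Q, E q h → f h ≠ c0 := by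
    by_cases hh : ∃ h ∈ Q, E q h
    · obtain ⟨h, hhQ, hqh⟩ := hh
      refine ⟨if f h = 0 then 1 else 0, by split_ifs <;> decide, ?_⟩
      intro h' hh' hqh'
      have : h' = h := hq' h' hh' h hhQ hqh' hqh
      subst this
      split_ifs with e
      · rw [e]; decide
      · exact e
    · exact ⟨0, by decide, fun h hh' hqh => absurd ⟨h, hh', hqh⟩ hh⟩
  let g : V → Fin 3 := fun w => if w = q then c0 else if w ∈ Ch then 2 else f w
  have gq : g q = c0 := by simp [g]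
  have gC : ∀ w ∈ Ch, g w = 2 := by
    intro w hw
    have : w ≠ q := fun h => hw.2.2 (h ▸ hq)
    simp [g, this, hw]
  have gS : ∀ w, w ≠ q → w ∉ Ch → g w = f w := by
    intro w h h'
    simp [g, h, h']
  refine ⟨g, ?_, ?_⟩
  · intro w hw
    by_cases hwq : w = q
    · rw [hwq, gq]; exact hc0
    · have hwC : w ∉ Ch := fun h => h.2.2 hw
      rw [gS w hwq hwC]
      exact hfQ w ⟨⟨hQS hw, hwq, hwC⟩, Or.inl hw⟩
  · have cA : ∀ w, ¬ (Res E S q w ∧ g q = g w) := by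
      rintro w ⟨⟨hqw, _, hwS⟩, hg⟩
      have hwq : w ≠ q := fun h => hloop q (h ▸ hqw)
      by_cases hwQ : w ∈ Q
      · rw [gq, gS w hwq (fun h => h.2.2 hwQ)] at hg
        exact hc0' w hwQ hqw hg.symm
      · rw [gq, gC w ⟨hwS, hqw, hwQ⟩] at hg
        exact hc0 hg
    have cB : ∀ p w, p ∈ Ch → Res E S p w ∧ g p = g w → w ∈ Ch := by
      rintro p w hp ⟨⟨hpw, _, hwS⟩, hg⟩
      by_contra hwC
      rw [gC p hp] at hg
      by_cases hwq : w = q
      · rw [hwq, gq] at hg; exact hc0 hg.symm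
      · rw [gS w hwq hwC] at hg
        exact hfQ w ⟨⟨hwS, hwq, hwC⟩, Or.inr ⟨p, hp, hpw⟩⟩ hg.symm
    have cC : ∀ u p, u ∈ Ch → TransGen (fun p q => Res E S p q ∧ g p = g q) u p →
        p ∈ Ch ∧ TransGen (Res E {w | w ∈ S ∧ E q w}) u p := by
      intro u p hu hup
      induction hup with
      | @single p hp =>
        have hpC := cB u p hu hp
        exact ⟨hpC, TransGen.single ⟨hp.1.1, ⟨hu.1, hu.2.1⟩, ⟨hpC.1, hpC.2.1⟩⟩⟩
      | @tail c p _ hp ih =>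
        have hpC := cB c p ih.1 hp
        exact ⟨hpC, TransGen.tail ih.2 ⟨hp.1.1, ⟨ih.1.1, ih.1.2.1⟩, ⟨hpC.1, hpC.2.1⟩⟩⟩
    have cD : ∀ u p, u ∈ S' → TransGen (fun p q => Res E S p q ∧ g p = g q) u p →
        (p ∈ S' ∧ TransGen (fun p q => Res E S' p q ∧ f p = f q) u p) ∨ p = q ∨ p ∈ Ch := by
      intro u p hu hup
      induction hup with
      | @single p hp =>
        by_cases hpq : p = q
        · exact Or.inr (Or.inl hpq)
        by_cases hpC : p ∈ Ch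
        · exact Or.inr (Or.inr hpC)
        have hpS : p ∈ S' := ⟨hp.1.2.2, hpq, hpC⟩
        refine Or.inl ⟨hpS, TransGen.single ⟨⟨hp.1.1, hu, hpS⟩, ?_⟩⟩
        rw [← gS u hu.2.1 hu.2.2, ← gS p hpq hpC]; exact hp.2
      | @tail c p _ hp ih =>
        rcases ih with ⟨hc, ih⟩ | ih | ih
        · by_cases hpq : p = q
          · exact Or.inr (Or.inl hpq)
          by_cases hpC : p ∈ Ch
          · exact Or.inr (Or.inr hpC)
          have hpS : p ∈ S' := ⟨hp.1.2.2, hpq, hpC⟩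
          refine Or.inl ⟨hpS, TransGen.tail ih ⟨⟨hp.1.1, hc, hpS⟩, ?_⟩⟩
          rw [← gS c hc.2.1 hc.2.2, ← gS p hpq hpC]; exact hp.2
        · exact absurd (ih ▸ hp) (cA p)
        · exact Or.inr (Or.inr (cB c p ih hp))
    intro u hu
    obtain ⟨c, hc, _⟩ := TransGen.head'_iff.1 hu
    by_cases huq : u = q
    · exact cA c (huq ▸ hc)
    by_cases huC : u ∈ Ch
    · exact h3 q (hQS hq) u (cC u u huC hu).2
    · rcases cD u u ⟨hc.1.2.1, huq, huC⟩ hu with ⟨_, h⟩ | h | h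
      · exact hf u h
      · exact huq h
      · exact huC h

end Pool.Agent.Mader
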