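import Pool.Agent.Mader.Rooted
import Pool.Agent.Mader4.MainInd

set_option autoImplicit false

namespace Pool.Agent.Mader

open List Relation

variable {V : Type*}

/-- A nonempty set `X` contains a nonempty set `Y` closed in `X` in which every two vertices
reach each other (a terminal strong component). -/
theorem exists_terminal [Finite V] (E : V → V → Prop) (X : Set V) (hX : X.Nonempty) :
    ∃ Y ⊆ X, Y.Nonempty ∧ (∀ v ∈ Y, ∀ w ∈ X, E v w → w ∈ Y) ∧
      ∀ v ∈ Y, ∀ a ∈ Y, ReflTransGen (Res E Y) v a := by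
  classical
  have hfin : ({Y : Set V | Y ⊆ X ∧ Y.Nonempty ∧ ∀ v ∈ Y, ∀ w ∈ X, E v w → w ∈ Y}).Finite :=
    Set.toFinite _
  obtain ⟨Y, hY⟩ := hfin.exists_minimal ⟨X, subset_refl X, hX, fun _ _ w hw _ => hw⟩
  obtain ⟨hYX, hYne, hYc⟩ := hY.prop
  refine ⟨Y, hYX, hYne, hYc, ?_⟩
  intro v hv a ha
  set R : Set V := {w | w ∈ Y ∧ ReflTransGen (Res E Y) v w} with hR
  have hRY : R ⊆ Y := fun w hw => hw.1
  have hYR : Y ⊆ R := by
    refine hY.le_of_le ⟨hRY.trans hYX, ⟨v, hv, ReflTransGen.refl⟩, ?_⟩ hRY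
    intro w hw z hz hwz
    have hzY := hYc w hw.1 z hz hwz
    exact ⟨hzY, hw.2.tail ⟨hwz, hw.1, hzY⟩⟩
  exact (hYR ha).2

/-- **Application step**: a strong digraph with acyclic out-neighbourhoods and without a
subdivision of the bioriented triangle is 3-colourable (given the rooted degree theorem). -/
theorem app [Finite V] {E : V → V → Prop} {S : Set V}
    (hsupp : ∀ p q, E p q → p ∈ S ∧ q ∈ S) (hloop : ∀ p, ¬ E p p)
    (hstrong : ∀ p ∈ S, ∀ q ∈ S, ReflTransGen E p q)
    (hno : ¬ HasK3 E S)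
    (hF : ∀ v ∈ S, ∀ u, ¬ TransGen (Res E {w | E v w}) u u)
    (hT6 : ∀ (X : Set V) (a : V), X ⊆ S → a ∈ X →
      (∀ v ∈ X, ReflTransGen (Res E X) v a) →
      (∀ v ∈ X, ∃ p q, p ≠ q ∧ Res E X v p ∧ Res E X v q) → Good (Res E X) X a) :
    Col E 3 := by
  classical
  by_cases hS : S = ∅
  · refine ⟨fun _ => 0, ?_⟩
    intro u hu
    obtain ⟨c, hc, _⟩ := TransGen.head'_iff.1 hu
    have := (hsupp _ _ hc.1).1
    rw [hS] at this
    exact this
  obtain ⟨r, hr⟩ := Set.nonempty_iff_ne_empty.2 hS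
  have hmain := main_ind E hloop (S \ {r}).ncard (S \ {r}) {w | E r w} rfl
    (fun w hw => ⟨(hsupp r w hw).2, fun e => hloop r (e ▸ hw)⟩)
  suffices h : ∃ f : V → Fin 3, (∀ q ∈ {w | E r w}, f q ≠ 2) ∧
      ∀ u, ¬ TransGen (fun p q => Res E (S \ {r}) p q ∧ f p = f q) u u by
    obtain ⟨f, hf2, hf⟩ := h
    let g : V → Fin 3 := fun w => if w = r then 2 else f w
    have gr : g r = 2 := by simp [g]
    have gn : ∀ w, w ≠ r → g w = f w := by
      intro w h
      simp [g, h]
    have hout : ∀ w, ¬ (E r w ∧ g r = g w) := by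
      rintro w ⟨hrw, hg⟩
      have hwr : w ≠ r := fun e => hloop r (e ▸ hrw)
      rw [gr, gn w hwr] at hg
      exact hf2 w hrw hg.symm
    refine ⟨g, fun u hu => ?_⟩
    have hur : u ≠ r := by
      rintro rfl
      obtain ⟨c, hc, _⟩ := TransGen.head'_iff.1 hu
      exact hout c hc
    have key : ∀ p, TransGen (fun p q => E p q ∧ g p = g q) u p →
        p = r ∨ TransGen (fun p q => Res E (S \ {r}) p q ∧ f p = f q) u p := by
      intro p hp
      induction hp with
      | @single p hp =>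
        by_cases hpr : p = r
        · exact Or.inl hpr
        · refine Or.inr (TransGen.single ⟨⟨hp.1, ⟨(hsupp _ _ hp.1).1, hur⟩,
            ⟨(hsupp _ _ hp.1).2, hpr⟩⟩, ?_⟩)
          rw [← gn u hur, ← gn p hpr]; exact hp.2
      | @tail c p _ hp ih =>
        by_cases hpr : p = r
        · exact Or.inl hpr
        · have hcr : c ≠ r := by
            rintro rfl
            exact hout p hp
          rcases ih with ih | ih
          · exact absurd ih hcr
          · refine Or.inr (TransGen.tail ih ⟨⟨hp.1, ⟨(hsupp _ _ hp.1).1, hcr⟩,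
              ⟨(hsupp _ _ hp.1).2, hpr⟩⟩, ?_⟩)
            rw [← gn c hcr, ← gn p hpr]; exact hp.2
    rcases key u hu with h | h
    · exact hur h
    · exact hf u h
  refine hmain ?_ ?_ ?_
  · -- reachability
    intro v hv
    have key : ∀ u, ReflTransGen E u v →
        (∃ q ∈ {w | E r w}, ReflTransGen (Res E (S \ {r})) q v) ∨
        (u ≠ r ∧ ReflTransGen (Res E (S \ {r})) u v) := by
      intro u hu
      induction hu using ReflTransGen.head_induction_on with
      | refl => exact Or.inr ⟨hv.2, ReflTransGen.refl⟩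
      | @head a c hac _ ih =>
        rcases ih with ih | ⟨hc, ih⟩
        · exact Or.inl ih
        · by_cases har : a = r
          · subst har
            exact Or.inl ⟨c, hac, ih⟩
          · exact Or.inr ⟨har, ReflTransGen.head
              ⟨hac, ⟨(hsupp _ _ hac).1, har⟩, ⟨(hsupp _ _ hac).2, hc⟩⟩ ih⟩
    rcases key r (hstrong r hr v hv.1) with h | h
    · exact h
    · exact absurd rfl h.1
  · -- accessible sets
    intro X hXS hXne hacc
    by_contra hcon
    push Not at hcon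
    obtain ⟨Y, hYX, hYne, hYc, hYst⟩ := exists_terminal E X hXne
    have hYS : Y ⊆ S := fun y hy => (hXS (hYX hy)).1
    have hrY : r ∉ Y := fun h => (hXS (hYX h)).2 rfl
    have hdeg : ∀ v ∈ Y, ∃ p q, p ≠ q ∧ Res E Y v p ∧ Res E Y v q := by
      intro v hv
      obtain ⟨w₁, hw₁, w₂, hw₂, h1, h2, hne⟩ := hcon v (hYX hv)
      exact ⟨w₁, w₂, hne, ⟨h1, hv, hYc v hv w₁ hw₁ h1⟩, ⟨h2, hv, hYc v hv w₂ hw₂ h2⟩⟩
    obtain ⟨v0, hv0⟩ := hYne
    obtain ⟨a, haY, har⟩ : ∃ a ∈ Y, ReflTransGen (fun p q => E p q ∧ q ∉ Y) a r := by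
      have key : ∀ u, ReflTransGen E u r →
          (∃ a ∈ Y, ReflTransGen (fun p q => E p q ∧ q ∉ Y) a r) ∨
          (u ∉ Y ∧ ReflTransGen (fun p q => E p q ∧ q ∉ Y) u r) := by
        intro u hu
        induction hu using ReflTransGen.head_induction_on with
        | refl => exact Or.inr ⟨hrY, ReflTransGen.refl⟩
        | @head a c hac _ ih =>
          rcases ih with ih | ⟨hc, ih⟩
          · exact Or.inl ih
          · by_cases haY : a ∈ Y
            · exact Or.inl ⟨a, haY, ReflTransGen.head ⟨hac, hc⟩ ih⟩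
            · exact Or.inr ⟨haY, ReflTransGen.head ⟨hac, hc⟩ ih⟩
      rcases key v0 (hstrong v0 (hYS hv0) r hr) with h | h
      · exact h
      · exact absurd hv0 h.1
    obtain ⟨b, hb⟩ := hT6 Y a hYS haY (fun v hv => hYst v hv a haY) hdeg
    apply hno
    by_cases hbY : b ∈ Y ∧ b ≠ a
    · obtain ⟨hbY, hba⟩ := hbY
      set ρ : V → V → Prop := fun p q => E p q ∧ (p = a ∨ p ∉ Y) with hρ
      have h1 : ReflTransGen ρ a r ∧ (r = a ∨ r ∉ Y) := by
        refine ⟨?_, Or.inr hrY⟩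
        have : ∀ z, ReflTransGen (fun p q => E p q ∧ q ∉ Y) a z →
            ReflTransGen ρ a z ∧ (z = a ∨ z ∉ Y) := by
          intro z hz
          induction hz with
          | refl => exact ⟨ReflTransGen.refl, Or.inl rfl⟩
          | @tail c d _ hcd ih => exact ⟨ih.1.tail ⟨hcd.1, ih.2⟩, Or.inr hcd.2⟩
        exact (this r har).1
      obtain ⟨q1, hq1, hq1b⟩ := hacc b (hYX hbY)
      have h2 : ReflTransGen ρ q1 b :=
        ReflTransGen.mono (fun p q h => ⟨h.1.1, Or.inr fun hp => h.2 (hYX hp)⟩) _ _ hq1b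
      have h3 : ReflTransGen ρ a b := (h1.1.tail ⟨hq1, h1.2⟩).trans h2
      obtain ⟨l, hl⟩ := exists_pth' h3 (Ne.symm hba)
      have hint : ∀ z ∈ l, z ∉ Y ∧ z ∈ S := by
        intro z hz
        have h4 := hl.forall_int_tail (P := fun z => (z = a ∨ z ∉ Y) ∧ z ∈ S)
          (fun p q h => ⟨h.2, (hsupp _ _ h.1).1⟩) z hz
        refine ⟨?_, h4.2⟩
        rcases h4.1 with e | e
        · exact absurd (e ▸ hz) hl.not_mem_left
        · exact e
      exact HasK3.lift hb (fun p q _ _ _ h => h.1) l (hl.1.imp fun _ _ h => h.1) hl.nodup_int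
        (fun z hz => (hint z hz).1) hYS (fun z hz => (hint z hz).2)
    · refine hb.mono ?_ hYS
      rintro p q hp hq hpq (h | ⟨rfl, rfl⟩)
      · exact h.1
      · exact absurd ⟨hq, Ne.symm hpq⟩ hbY
  · intro v hv u hu
    refine hF v hv.1 u (TransGen.mono ?_ _ _ hu)
    exact fun a b hab => ⟨hab.1, hab.2.1.2, hab.2.2.2⟩

end Pool.Agent.Mader
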