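import Pool.Agent.Mader.Main

set_option autoImplicit false

namespace Pool.Agent.Mader

open List Relation

variable {V : Type*} {E : V → V → Prop} {S : Set V} {x : V}

/-- The configuration `x → y`, `x → q`, `y ⇒ q` (interior `m₁`), `q ⇒ y` (interior `s`),
`y ⇒ x` (interior `l`), `q ⇒ x` (interior `m₂`). -/
theorem k3_config {y q : V} {m₁ m₂ l s : List V} (hsupp : ∀ p q, E p q → p ∈ S ∧ q ∈ S)
    (hxy : E x y) (hxq : E x q)
    (pyq : Pth E y m₁ q) (ps : Pth E q s y) (p2 : Pth E y l x) (pqx : Pth E q m₂ x)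
    (hxm1 : x ∉ m₁) (hxs : x ∉ s) (hym2 : y ∉ m₂) (hql : q ∉ l)
    (hsm1 : ∀ z ∈ s, z ∉ m₁) (hm1l : ∀ z ∈ m₁, z ∉ l) (hm12 : ∀ z ∈ m₁, z ∉ m₂)
    (hsl : ∀ z ∈ s, z ∉ l) (hsm2 : ∀ z ∈ s, z ∉ m₂) (hm2l : ∀ z ∈ m₂, z ∉ l) : HasK3 E S := by
  have hxyn : x ≠ y := p2.ne.symm
  have hqx : q ≠ x := pqx.ne
  have hqy := ps.ne
  have hx2 := p2.not_mem_right
  have hxm2 := pqx.not_mem_right
  have hy2 := p2.not_mem_left
  have hq2 := pqx.not_mem_left
  have hn2 := p2.nodup_int
  have hns := ps.nodup_int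
  have hys := ps.not_mem_right
  have hqs := ps.not_mem_left
  have hq1 := pyq.not_mem_right
  have hym1 := pyq.not_mem_left
  have hnm1 : m₁.Nodup := pyq.nodup_int
  have hnm2 : m₂.Nodup := pqx.nodup_int
  have hSx : x ∈ S := (hsupp _ _ hxy).1
  have hSy : y ∈ S := (hsupp _ _ hxy).2
  have hSq : q ∈ S := (hsupp _ _ hxq).2
  have hSm1 : ∀ z ∈ m₁, z ∈ S := pyq.forall_int (fun p q h => (hsupp p q h).2)
  have hSm2 : ∀ z ∈ m₂, z ∈ S := pqx.forall_int (fun p q h => (hsupp p q h).2)
  have hSl : ∀ z ∈ l, z ∈ S := p2.forall_int (fun p q h => (hsupp p q h).2)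
  have hSs : ∀ z ∈ s, z ∈ S := ps.forall_int (fun p q h => (hsupp p q h).2)
  refine HasK3.of_int ![x, y, q] ![![[], [], []], ![l, [], m₁], ![m₂, s, []]] ?_ ?_ ?_ ?_ ?_ ?_ ?_
  · intro i j hij
    fin_cases i <;> fin_cases j <;> simp_all
  · intro i j hij
    fin_cases i <;> fin_cases j
    · exact absurd rfl hij
    · simpa using hxy
    · simpa using hxq
    · exact p2.1
    · exact absurd rfl hij
    · exact pyq.1
    · exact pqx.1
    · exact ps.1
    · exact absurd rfl hij
  · intro i j _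
    fin_cases i <;> fin_cases j <;> simp <;> assumption
  · intro i j k _
    fin_cases i <;> fin_cases j <;> fin_cases k <;> simp <;> assumption
  · intro i j k l' hij hkl hne
    fin_cases i <;> fin_cases j <;> first | exact absurd rfl hij | skip
    all_goals fin_cases k <;> fin_cases l' <;> first | exact absurd rfl hkl | exact absurd rfl hne | skip
    all_goals simp
    all_goals first
      | assumption
      | (intro z hz hz'; exact hm12 z hz hz')
      | (intro z hz hz'; exact hm12 z hz' hz)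
      | (intro z hz hz'; exact hm1l z hz hz')
      | (intro z hz hz'; exact hm1l z hz' hz)
      | (intro z hz hz'; exact hm2l z hz hz')
      | (intro z hz hz'; exact hm2l z hz' hz)
      | (intro z hz hz'; exact hsm1 z hz hz')
      | (intro z hz hz'; exact hsm1 z hz' hz)
      | (intro z hz hz'; exact hsm2 z hz hz')
      | (intro z hz hz'; exact hsm2 z hz' hz)
      | (intro z hz hz'; exact hsl z hz hz')
      | (intro z hz hz'; exact hsl z hz' hz)
  · intro k
    fin_cases k <;> simp <;> assumption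
  · intro i j _
    fin_cases i <;> fin_cases j <;> simp <;> assumption

/-- Reversal of paths. -/
theorem Pth.reverse {r : V → V → Prop} {a b : V} {l : List V}
    (h : Pth (fun p q => r q p) a l b) : Pth r b l.reverse a := by
  obtain ⟨h1, h2⟩ := h
  have e : (a :: (l ++ [b])).reverse = b :: (l.reverse ++ [a]) := by simp
  refine ⟨?_, ?_⟩
  · rw [← e, isChain_reverse]
    exact h1
  · rw [← e, nodup_reverse]
    exact h2

/-- Last vertex of a path (including its start) in a set `C`. -/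
theorem Pth.last_in {r : V → V → Prop} {C : V → Prop} {a b : V} {l : List V}
    (h : Pth r a l b) (ha : C a) : ∃ q l', Pth r q l' b ∧ C q ∧ (∀ z ∈ l', ¬ C z) ∧
      (q = a ∨ q ∈ l) ∧ (∀ z ∈ l', z ∈ l) := by
  by_cases hex : ∃ z ∈ l, C z
  · obtain ⟨l₁, q, l₂, rfl, hq, hl⟩ := last_split C l hex
    exact ⟨q, l₂, h.split.2, hq, hl, Or.inr (by simp), fun z hz => by simp [hz]⟩
  · push Not at hex
    exact ⟨a, l, h, ha, hex, Or.inl rfl, fun z hz => hz⟩

/-- Two vertices of a closed walk given as `C = A ++ b₁ :: B ++ b₂ :: D`. -/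
theorem cyc_paths {r : V → V → Prop} {A B D : List V} {b₁ b₂ hd lst : V}
    (hch : (A ++ b₁ :: (B ++ b₂ :: D)).IsChain r) (hnd : (A ++ b₁ :: (B ++ b₂ :: D)).Nodup)
    (hhd : (A ++ b₁ :: (B ++ b₂ :: D)).head? = some hd)
    (hlst : (A ++ b₁ :: (B ++ b₂ :: D)).getLast? = some lst) (hc : r lst hd) :
    Pth r b₁ B b₂ ∧ Pth r b₂ (D ++ A) b₁ := by
  have hb12 : b₁ ≠ b₂ := by
    rintro rfl
    have := (nodup_append.1 hnd).2.1
    rw [nodup_cons] at this
    exact this.1 (by simp)
  constructor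
  · refine ⟨?_, ?_⟩
    · rw [isChain_split] at hch
      have h2 := hch.2
      rw [show b₁ :: (B ++ b₂ :: D) = (b₁ :: B) ++ b₂ :: D by simp, isChain_split] at h2
      simpa using h2.1
    · have h2 := (nodup_append.1 hnd).2.1
      rw [show b₁ :: (B ++ b₂ :: D) = (b₁ :: (B ++ [b₂])) ++ D by simp] at h2
      exact (nodup_append.1 h2).1
  · refine ⟨?_, ?_⟩
    · have h1 : (A ++ [b₁]).IsChain r := by
        rw [isChain_split] at hch
        exact hch.1
      have h2 : (b₂ :: D).IsChain r := by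
        rw [isChain_split] at hch
        have h2 := hch.2
        rw [show b₁ :: (B ++ b₂ :: D) = (b₁ :: B) ++ b₂ :: D by simp, isChain_split] at h2
        exact h2.2
      have e : b₂ :: ((D ++ A) ++ [b₁]) = (b₂ :: D) ++ (A ++ [b₁]) := by simp
      rw [e, isChain_append]
      refine ⟨h2, h1, ?_⟩
      intro p hp q hq
      have hp' : p = lst := by
        have e1 : A ++ b₁ :: (B ++ b₂ :: D) = (A ++ b₁ :: B) ++ (b₂ :: D) := by simp
        rw [e1, getLast?_append_of_ne_nil _ (by simp)] at hlst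
        have : some p = some lst := by rw [← hlst]; exact hp.symm
        exact Option.some.inj this
      have hq' : q = hd := by
        have h3 : (A ++ [b₁]).head? = some hd := by
          cases A with
          | nil => simpa using hhd
          | cons c A => simpa using hhd
        have : some q = some hd := by rw [← h3]; exact hq.symm
        exact Option.some.inj this
      rw [hp', hq']
      exact hc
    · have hp : (b₂ :: ((D ++ A) ++ [b₁])) ~ (A ++ b₁ :: b₂ :: D) := by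
        have e1 : b₂ :: ((D ++ A) ++ [b₁]) = (b₂ :: D) ++ (A ++ [b₁]) := by simp
        have e2 : A ++ b₁ :: b₂ :: D = (A ++ [b₁]) ++ (b₂ :: D) := by simp
        rw [e1, e2]
        exact perm_append_comm
      rw [hp.nodup_iff]
      refine hnd.sublist ?_
      refine Sublist.append_left ?_ A
      refine Sublist.cons_cons b₁ ?_
      exact sublist_append_right _ _

/-- **Lemma F.**  In a 2-strong digraph without a subdivision of the bioriented triangle all
out-neighbourhoods are acyclic. -/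
theorem lemF [Finite V] (hsupp : ∀ p q, E p q → p ∈ S ∧ q ∈ S) (hloop : ∀ p, ¬ E p p)
    (h2 : ∀ z, ∀ p ∈ S, ∀ q ∈ S, p ≠ z → q ≠ z →
      ReflTransGen (fun a b => E a b ∧ a ≠ z ∧ b ≠ z) p q)
    (hno : ¬ HasK3 E S) : ∀ v ∈ S, ∀ u, ¬ TransGen (Res E {w | E v w}) u u := by
  classical
  intro v hv u hu
  apply hno
  -- a simple cycle
  obtain ⟨u', hu', hu'u⟩ := TransGen.head'_iff.1 hu
  have hne : u' ≠ u := by
    rintro rfl
    exact hloop u' hu'.1
  obtain ⟨l, hl⟩ := exists_pth' hu'u hne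
  set L : List V := u' :: (l ++ [u]) with hL
  have hLhd : L.head? = some u' := by simp [hL]
  have hLlst : L.getLast? = some u := by
    rw [hL, show u' :: (l ++ [u]) = (u' :: l) ++ [u] by simp, getLast?_append_of_ne_nil _ (by simp)]
    simp
  have hLN : ∀ z ∈ L, E v z := by
    intro z hz
    simp only [hL, mem_cons, mem_append, not_mem_nil, or_false] at hz
    rcases hz with rfl | hz | rfl
    · exact hu'.2.2
    · exact hl.forall_int (P := fun z => E v z) (fun p q h => h.2.2) z hz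
    · exact hu'.2.1
  have hvL : v ∉ L := fun h => hloop v (hLN v h)
  have hLS : ∀ z ∈ L, z ∈ S := fun z hz => (hsupp v z (hLN z hz)).2
  have hu'L : u' ∈ L := by simp [hL]
  have huL : u ∈ L := by simp [hL]
  -- the fan
  have hvu : v ≠ u := fun h => hvL (h ▸ huL)
  have hvu' : v ≠ u' := fun h => hvL (h ▸ hu'L)
  have hrev : ∀ z p q, ReflTransGen (fun a b => E a b ∧ a ≠ z ∧ b ≠ z) p q →
      ReflTransGen (fun a b => E b a ∧ a ≠ z ∧ b ≠ z) q p := by
    intro z p q h
    induction h with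
    | refl => exact ReflTransGen.refl
    | tail _ hbc ih => exact ReflTransGen.head ⟨hbc.1, hbc.2.2, hbc.2.1⟩ ih
  obtain ⟨l₁, l₂, p1, p2, ha1, hx2, hd, _⟩ := fan (r := fun p q => E q p) (v := v) (x := u) (a := u')
    hvu (fun z hzv hzu => hrev z _ _ (h2 z u (hLS u huL) v hv (Ne.symm hzu) (Ne.symm hzv)))
    (hrev u _ _ (h2 u u' (hLS u' hu'L) v hv hne hvu)) hvu'.symm
  have q1 := p1.reverse
  have q2 := p2.reverse
  obtain ⟨b₁, k₁, r1, hb1, hk1, hb1', hk1'⟩ := q1.last_in (C := fun z => z ∈ L) huL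
  obtain ⟨b₂, k₂, r2, hb2, hk2, hb2', hk2'⟩ := q2.last_in (C := fun z => z ∈ L) hu'L
  have hk1'' : ∀ z ∈ k₁, z ∈ l₁ := fun z hz => by simpa using hk1' z hz
  have hk2'' : ∀ z ∈ k₂, z ∈ l₂ := fun z hz => by simpa using hk2' z hz
  have hb1'' : b₁ = u ∨ b₁ ∈ l₁ := by simpa using hb1'
  have hb2'' : b₂ = u' ∨ b₂ ∈ l₂ := by simpa using hb2'
  have hb12 : b₁ ≠ b₂ := by
    rintro rfl
    rcases hb1'' with rfl | h
    · rcases hb2'' with h' | h'
      · exact hne h'.symm
      · exact hx2 h'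
    · rcases hb2'' with rfl | h'
      · exact ha1 h
      · exact hd _ h h'
  have hkd : ∀ z ∈ k₁, z ∉ k₂ := fun z h h' => hd z (hk1'' z h) (hk2'' z h')
  -- main step, symmetric in the two vertices
  have key : ∀ b₁ b₂ k₁ k₂ A B D, L = A ++ b₁ :: (B ++ b₂ :: D) →
      Pth E b₁ k₁ v → Pth E b₂ k₂ v → (∀ z ∈ k₁, z ∉ L) → (∀ z ∈ k₂, z ∉ L) →
      (∀ z ∈ k₁, z ∉ k₂) → HasK3 E S := by
    intro b₁ b₂ k₁ k₂ A B D hLe r1 r2 hk1 hk2 hkd
    have hch : L.IsChain (Res E {w | E v w}) := hl.1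
    have hnd : L.Nodup := hl.2
    obtain ⟨c1, c2⟩ := cyc_paths (r := Res E {w | E v w}) (hd := u') (lst := u) (hLe ▸ hch)
      (hLe ▸ hnd) (hLe ▸ hLhd) (hLe ▸ hLlst) hu'
    have c1' : Pth E b₁ B b₂ := c1.mono (fun p q h => h.1)
    have c2' : Pth E b₂ (D ++ A) b₁ := c2.mono (fun p q h => h.1)
    have hb1L : b₁ ∈ L := by rw [hLe]; simp
    have hb2L : b₂ ∈ L := by rw [hLe]; simp
    have hBL : ∀ z ∈ B, z ∈ L := fun z hz => by rw [hLe]; simp [hz]
    have hDAL : ∀ z ∈ D ++ A, z ∈ L := by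
      intro z hz
      rw [hLe]
      rcases mem_append.1 hz with h | h <;> simp [h]
    have hdis : ∀ z ∈ D ++ A, z ∉ B := by
      intro z hz hzB
      rw [hLe] at hnd
      rcases mem_append.1 hz with h | h
      · have h3 := (nodup_append.1 hnd).2.1
        rw [nodup_cons] at h3
        exact (nodup_append.1 h3.2).2.2 z hzB z (by simp [h]) rfl
      · exact (nodup_append.1 hnd).2.2 z h z (by simp [hzB]) rfl
    exact k3_config (x := v) (y := b₁) (q := b₂) hsupp (hLN b₁ hb1L) (hLN b₂ hb2L) c1' c2' r1 r2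
      (fun h => hvL (hBL v h)) (fun h => hvL (hDAL v h)) (fun h => hk2 _ h hb1L)
      (fun h => hk1 _ h hb2L) hdis (fun z hz h => hk1 z h (hBL z hz))
      (fun z hz h => hk2 z h (hBL z hz)) (fun z hz h => hk1 z h (hDAL z hz))
      (fun z hz h => hk2 z h (hDAL z hz)) (fun z hz h => hkd z h hz)
  obtain ⟨A, R, hAR⟩ := List.append_of_mem hb1
  have hb2m : b₂ ∈ A ++ b₁ :: R := hAR ▸ hb2
  rcases mem_append.1 hb2m with h | h
  · obtain ⟨A', B', rfl⟩ := List.append_of_mem h
    exact key b₂ b₁ k₂ k₁ A' B' R (by rw [hAR]; simp) r2 r1 hk2 hk1 (fun z h h' => hkd z h' h)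
  · rcases mem_cons.1 h with h | h
    · exact absurd h.symm hb12
    · obtain ⟨B', D', rfl⟩ := List.append_of_mem h
      exact key b₁ b₂ k₁ k₂ A B' D' hAR r1 r2 hk1 hk2 hkd

end Pool.Agent.Mader
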