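import Pool.Agent.Mader.Main

set_option autoImplicit false

namespace Pool.Agent.Mader.T6b

open List Relation

variable {V : Type*}

/-- Hypotheses of the theorem `T6''`. -/
structure Hyp (E : V → V → Prop) (S : Set V) (a : V) : Prop where
  supp : ∀ p q, E p q → p ∈ S ∧ q ∈ S
  loop : ∀ p, ¬ E p p
  ha : a ∈ S
  reach : ∀ v ∈ S, ReflTransGen E v a
  deg : ∀ v ∈ S, v ≠ a → ∃ p q, p ≠ q ∧ E v p ∧ E v q
  dega : ∃ p, E a p

variable {E E' : V → V → Prop} {S : Set V} {a : V}

/-- `p → q` in `E` avoiding the vertex `z`. -/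
def Av (E : V → V → Prop) (z : V) : V → V → Prop := fun p q => E p q ∧ p ≠ z ∧ q ≠ z

theorem exists_thin [Finite V] (h : Hyp E S a) : ∃ E' : V → V → Prop, (∀ p q, E' p q → E p q) ∧
    Hyp E' S a ∧
    (∀ v p q r, v ≠ a → E' v p → E' v q → E' v r → p = q ∨ p = r ∨ q = r) ∧
    (∀ p q, E' a p → E' a q → p = q) := by
  classical
  have hfin : ({R : Set (V × V) | Hyp (fun p q => (p, q) ∈ R) S a ∧ ∀ x ∈ R, E x.1 x.2}).Finite :=
    Set.toFinite _
  obtain ⟨R, hR⟩ := hfin.exists_minimal ⟨{x | E x.1 x.2}, ⟨h.supp, h.loop, h.ha, h.reach, h.deg, h.dega⟩,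
    fun x hx => hx⟩
  have hRh : Hyp (fun p q => (p, q) ∈ R) S a := hR.prop.1
  have hRE := hR.prop.2
  have key : ∀ v r, (v, r) ∈ R → ReflTransGen (fun p q => (p, q) ∈ R \ {(v, r)}) v a →
      (v ≠ a → ∃ p q, p ≠ q ∧ p ≠ r ∧ q ≠ r ∧ (v, p) ∈ R ∧ (v, q) ∈ R) →
      (v = a → ∃ p, p ≠ r ∧ (a, p) ∈ R) → False := by
    intro v r hvr hva h1 h2
    have hmem : (R \ {(v, r)}) ∈
        {R : Set (V × V) | Hyp (fun p q => (p, q) ∈ R) S a ∧ ∀ x ∈ R, E x.1 x.2} := by
      refine ⟨⟨fun p q hpq => hRh.supp p q hpq.1, fun p hp => hRh.loop p hp.1, hRh.ha, ?_, ?_, ?_⟩,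
        fun x hx => hRE x hx.1⟩
      · intro x hx
        have := hRh.reach x hx
        induction this using ReflTransGen.head_induction_on with
        | refl => exact ReflTransGen.refl
        | @head p c hpc _ ih =>
          by_cases he : (p, c) = (v, r)
          · obtain ⟨rfl, rfl⟩ := Prod.mk.inj he
            exact hva
          · exact (ih (hRh.supp p c hpc).2).head ⟨hpc, he⟩
      · intro x hx hxa
        by_cases hxv : x = v
        · subst hxv
          obtain ⟨p, q, hpq, hpr, hqr, hp, hq⟩ := h1 hxa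
          exact ⟨p, q, hpq, ⟨hp, fun e => hpr (Prod.mk.inj e).2⟩, ⟨hq, fun e => hqr (Prod.mk.inj e).2⟩⟩
        · obtain ⟨p, q, hpq, hp, hq⟩ := hRh.deg x hx hxa
          exact ⟨p, q, hpq, ⟨hp, fun e => hxv (Prod.mk.inj e).1⟩, ⟨hq, fun e => hxv (Prod.mk.inj e).1⟩⟩
      · by_cases hva' : v = a
        · subst hva'
          obtain ⟨p, hpr, hp⟩ := h2 rfl
          exact ⟨p, hp, fun e => hpr (Prod.mk.inj e).2⟩
        · obtain ⟨p, hp⟩ := hRh.dega
          exact ⟨p, hp, fun e => hva' (Prod.mk.inj e).1.symm⟩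
    have := hR.le_of_le hmem Set.sdiff_subset
    exact (this hvr).2 rfl
  refine ⟨fun p q => (p, q) ∈ R, fun p q hpq => hRE _ hpq, hRh, ?_, ?_⟩
  · intro v p q r hva hp hq hr
    by_contra hcon
    push Not at hcon
    obtain ⟨hpq, hpr, hqr⟩ := hcon
    have hvS := (hRh.supp v p hp).1
    obtain ⟨l, hl⟩ := exists_pth' (hRh.reach v hvS) hva
    have hl0 := hl
    -- the first vertex after `v`
    obtain ⟨c, hvc, hca⟩ : ∃ c, (v, c) ∈ R ∧ ∀ r', r' ≠ c →
        ReflTransGen (fun p q => (p, q) ∈ R \ {(v, r')}) v a := by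
      cases l with
      | nil =>
        have h1 : (v, a) ∈ R := by
          have := hl.1
          simpa using this
        refine ⟨a, h1, fun r' hr' => ReflTransGen.single ⟨h1, fun e => hr' (Prod.mk.inj e).2.symm⟩⟩
      | cons c l =>
        have hs := Pth.split (l₁ := []) (q := c) (l₂ := l) (by simpa using hl)
        have h1 : (v, c) ∈ R := by
          have := hs.1.1
          simpa using this
        refine ⟨c, h1, fun r' hr' => ?_⟩
        have h2 : ReflTransGen (fun p q => (p, q) ∈ R ∧ p ≠ v) c a := by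
          have : Pth (fun p q => (p, q) ∈ R ∧ p ≠ v) c l a := by
            refine ⟨?_, hs.2.2⟩
            rw [isChain_iff_nxt]
            intro x y hxy
            refine ⟨isChain_iff_nxt.1 hs.2.1 x y hxy, ?_⟩
            rintro rfl
            have hx : x ∈ c :: (l ++ [a]) := hxy.left_mem
            have := hl.2
            simp only [cons_append, nodup_cons] at this
            exact this.1 hx
          exact this.reflTransGen
        have h3 : ReflTransGen (fun p q => (p, q) ∈ R \ {(v, r')}) c a := by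
          refine ReflTransGen.mono ?_ _ _ h2
          intro x y hxy
          exact ⟨hxy.1, fun e => hxy.2 (Prod.mk.inj e).1⟩
        exact h3.head ⟨h1, fun e => hr' (Prod.mk.inj e).2.symm⟩
    by_cases h1 : r = c
    · subst h1
      exact key v p hp (hca p hpr) (fun _ => ⟨q, r, hqr, hpq.symm, hpr.symm, hq, hr⟩)
        (fun e => absurd e hva)
    · exact key v r hr (hca r h1) (fun _ => ⟨p, q, hpq, hpr, hqr, hp, hq⟩) (fun e => absurd e hva)
  · intro p q hp hq
    by_contra hpq
    exact key a q hq ReflTransGen.refl (fun e => absurd rfl e) (fun _ => ⟨p, hpq, hp⟩)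

/-- The vertices that reach `a` only through `s`. -/
def W (E : V → V → Prop) (S : Set V) (a s : V) : Set V :=
  {v | v ∈ S ∧ v ≠ s ∧ ¬ ReflTransGen (Av E s) v a}

theorem W_closed (hs : Hyp E S a) {s v q : V} (hv : v ∈ W E S a s) (hvq : E v q) :
    q ∈ W E S a s ∨ q = s := by
  by_cases hqs : q = s
  · exact Or.inr hqs
  · refine Or.inl ⟨(hs.supp v q hvq).2, hqs, fun h => hv.2.2 (h.head ⟨hvq, hv.2.1, hqs⟩)⟩

theorem not_mem_W {s : V} : a ∉ W E S a s := fun h => h.2.2 ReflTransGen.refl

theorem hasK3_of_good_mono {E₁ : V → V → Prop} {S₁ : Set V}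
    (h : Good E₁ S₁ a) (hE : ∀ p q, E₁ p q → E p q) (hS : S₁ ⊆ S) : Good E S a := by
  obtain ⟨w, hw⟩ := h
  refine ⟨w, hw.mono ?_ hS⟩
  rintro p q _ _ _ (h | h)
  · exact Or.inl (hE p q h)
  · exact Or.inr h

/-- The induction hypothesis. -/
def IH (V : Type*) (n : ℕ) : Prop :=
  ∀ (E : V → V → Prop) (S : Set V) (a : V), S.ncard < n → Hyp E S a → Good E S a

/-- Reduction to strong digraphs. -/
theorem strong_red [Finite V] (ih : IH V S.ncard) (h : Hyp E S a) (hng : ¬ Good E S a) :
    ∀ x ∈ S, ReflTransGen E a x := by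
  by_contra hcon
  push Not at hcon
  obtain ⟨x, hx, hax⟩ := hcon
  set S₁ : Set V := {y | y ∈ S ∧ ReflTransGen E a y} with hS₁
  have hcl : ∀ p q, p ∈ S₁ → E p q → q ∈ S₁ := fun p q hp hpq =>
    ⟨(h.supp p q hpq).2, hp.2.tail hpq⟩
  apply hng
  refine hasK3_of_good_mono (E₁ := Res E S₁) (S₁ := S₁) ?_ (fun p q hpq => hpq.1) (fun y hy => hy.1)
  refine ih _ _ _ (Set.ncard_lt_ncard ⟨fun y hy => hy.1, fun hh => hax (hh hx).2⟩ (Set.toFinite _)) ?_
  refine ⟨fun p q hpq => hpq.2, fun p hp => h.loop p hp.1, ⟨h.ha, ReflTransGen.refl⟩, ?_, ?_, ?_⟩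
  · intro v hv
    have := h.reach v hv.1
    induction this using ReflTransGen.head_induction_on with
    | refl => exact ReflTransGen.refl
    | @head p c hpc _ ih =>
      have hc := hcl p c hv hpc
      exact (ih hc).head ⟨hpc, hv, hc⟩
  · intro v hv hva
    obtain ⟨p, q, hpq, hp, hq⟩ := h.deg v hv.1 hva
    exact ⟨p, q, hpq, ⟨hp, hv, hcl v p hv hp⟩, ⟨hq, hv, hcl v q hv hq⟩⟩
  · obtain ⟨p, hp⟩ := h.dega
    have ha : a ∈ S₁ := ⟨h.ha, ReflTransGen.refl⟩
    exact ⟨p, hp, ha, hcl a p ha hp⟩

theorem Pth.avoid {r : V → V → Prop} {x y z : V} {l : List V} (h : Pth r x l y) (hzx : z ≠ x)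
    (hzl : z ∉ l) (hzy : z ≠ y) : Pth (Av r z) x l y := by
  refine ⟨?_, h.2⟩
  have hmem : ∀ t ∈ x :: (l ++ [y]), t ≠ z := by
    intro t ht
    simp only [mem_cons, mem_append, not_mem_nil, or_false] at ht
    rintro rfl
    rcases ht with e | e | e
    · exact hzx e
    · exact hzl e
    · exact hzy e
  rw [isChain_iff_nxt]
  intro p q hpq
  exact ⟨isChain_iff_nxt.1 h.1 p q hpq, hmem p hpq.left_mem, hmem q hpq.right_mem⟩

/-- Step (i): no vertex `s ≠ a` separates a vertex from `a`. -/
theorem step_i [Finite V] (ih : IH V S.ncard) (h : Hyp E S a) (hng : ¬ Good E S a)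
    (hstr : ∀ x ∈ S, ReflTransGen E a x) {s v : V} (hsa : s ≠ a) (hv : v ∈ S) (hvs : v ≠ s) :
    ReflTransGen (Av E s) v a := by
  classical
  by_cases hsS : s ∈ S
  swap
  · refine ReflTransGen.mono ?_ _ _ (h.reach v hv)
    intro p q hpq
    exact ⟨hpq, fun e => hsS (e ▸ (h.supp p q hpq).1), fun e => hsS (e ▸ (h.supp p q hpq).2)⟩
  by_contra hcon
  -- choose `s` with `W s` maximal
  have hfin : ({t | t ∈ S ∧ t ≠ a ∧ (W E S a t).Nonempty} : Set V).Finite := Set.toFinite _
  have hne : ({t | t ∈ S ∧ t ≠ a ∧ (W E S a t).Nonempty} : Set V).Nonempty :=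
    ⟨s, hsS, hsa, v, hv, hvs, hcon⟩
  obtain ⟨s, ⟨hsS, hsa, hWne⟩, hmax⟩ := Set.exists_max_image _ (fun t => (W E S a t).ncard) hfin hne
  clear hcon hv hvs
  obtain ⟨w₀, hw₀⟩ := hWne
  have hcl : ∀ p q, p ∈ W E S a s → E p q → q ∈ W E S a s ∨ q = s := fun p q hp hpq =>
    W_closed h hp hpq
  have hWS : W E S a s ⊆ S := fun x hx => hx.1
  have haW : a ∉ W E S a s := not_mem_W
  have hsW : s ∉ W E S a s := fun e => e.2.1 rfl
  -- simple paths from `s` to `a` avoid `W s`
  have hpathW : ∀ l, Pth E s l a → ∀ z ∈ l, z ∉ W E S a s := by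
    intro l hl z hz hzW
    have hsl := hl.not_mem_left
    obtain ⟨l₁, l₂, rfl⟩ := List.append_of_mem hz
    have h2 := hl.split.2
    have h3 := (Pth.avoid (z := s) h2 hzW.2.1.symm (fun e => hsl (by simp [e])) hsa).reflTransGen
    exact hzW.2.2 h3
  -- vertices of `W s` reach `s`
  obtain ⟨l₀, hl₀⟩ := exists_pth' (h.reach s hsS) hsa
  -- no vertex separates `s` from `a`
  have hsep : ∀ z, z ≠ s → z ≠ a → ReflTransGen (fun p q => E p q ∧ p ≠ z ∧ q ≠ z) s a := by
    intro z hzs hza
    by_cases hzW : z ∈ W E S a s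
    · exact (Pth.avoid (z := z) hl₀ hzs (fun e => hpathW l₀ hl₀ z e hzW) hza).reflTransGen
    by_contra hsz
    have hzS : z ∈ S := by
      by_contra hzS
      apply hsz
      refine ReflTransGen.mono ?_ _ _ (h.reach s hsS)
      intro p q hpq
      exact ⟨hpq, fun e => hzS (e ▸ (h.supp p q hpq).1), fun e => hzS (e ▸ (h.supp p q hpq).2)⟩
    have hsz' : s ∈ W E S a z := ⟨hsS, hzs.symm, hsz⟩
    have hsub : W E S a s ⊂ W E S a z := by
      refine ⟨?_, fun hh => hsW (hh hsz')⟩
      intro v hv
      refine ⟨hv.1, fun e => hzW (e ▸ hv), ?_⟩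
      intro hva
      have claim : v ∈ W E S a s → ReflTransGen (Av E z) s a := by
        clear hv
        induction hva using ReflTransGen.head_induction_on with
        | refl => intro hv; exact absurd hv haW
        | @head p c hpc hca ih =>
          intro hp
          rcases hcl p c hp hpc.1 with e | e
          · exact ih e
          · subst e; exact hca
      exact hsz (claim hv)
    have h1 := Set.ncard_lt_ncard hsub (Set.toFinite _)
    have h2 := hmax z ⟨hzS, hza, s, hsz'⟩
    exact absurd h2 (not_le.2 h1)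
  by_cases hreach : ∃ w ∈ W E S a s, ReflTransGen (fun p q => E p q ∧ p ≠ a ∧ q ≠ a) s w
  · -- a fan from `s` to `a` and `w`
    obtain ⟨w, hw, hsw⟩ := hreach
    obtain ⟨l₁, l₂, p1, p2, hw1, ha2, hd, hwa⟩ := fan hsa hsep hsw (fun e => hsW (e ▸ hw))
    -- truncate the second path at the first vertex of `W s`
    obtain ⟨m, w', m', hmw, hw', hm⟩ := first_split (fun z => z ∈ W E S a s) (l₂ ++ [w])
      ⟨w, by simp, hw⟩
    have p2' : Pth E s m w' := by
      rcases List.eq_nil_or_concat m' with rfl | ⟨m'', x, rfl⟩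
      · have e1 : l₂ = m := List.append_inj_left' hmw (by simp)
        have e2 : [w] = [w'] := List.append_inj_right' hmw (by simp)
        simp at e2
        subst e1; subst e2; exact p2
      · have e1 : l₂ = m ++ w' :: m'' := by
          have : l₂ ++ [w] = (m ++ w' :: m'') ++ [x] := by rw [hmw]; simp
          exact List.append_inj_left' this (by simp)
        rw [e1] at p2
        exact p2.split.1
    have hmsub : ∀ z ∈ m, z ∈ l₂ := by
      rcases List.eq_nil_or_concat m' with rfl | ⟨m'', x, rfl⟩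
      · have e1 : l₂ = m := List.append_inj_left' hmw (by simp)
        intro z hz; rw [e1]; exact hz
      · have e1 : l₂ = m ++ w' :: m'' := by
          have : l₂ ++ [w] = (m ++ w' :: m'') ++ [x] := by rw [hmw]; simp
          exact List.append_inj_left' this (by simp)
        intro z hz; rw [e1]; simp [hz]
    have hl1W := hpathW l₁ p1
    have hmd : ∀ z ∈ m, z ∉ l₁ := fun z hz hz' => hd z hz' (hmsub z hz)
    have ham : a ∉ m := fun e => ha2 (hmsub a e)
    set S₁ : Set V := {v | v ∈ W E S a s ∨ v = s} with hS₁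
    have hS₁S : S₁ ⊂ S := by
      refine ⟨?_, ?_⟩
      · rintro v (hv | rfl)
        · exact hWS hv
        · exact hsS
      · intro hh
        rcases hh h.ha with e | e
        · exact haW e
        · exact hsa e.symm
    have hms : w' ≠ s := fun e => hsW (e ▸ hw')
    have hgood : Good (fun p q => Res E S₁ p q ∨ (p = s ∧ q = w')) S₁ s := by
      refine ih _ _ _ (Set.ncard_lt_ncard hS₁S (Set.toFinite _)) ?_
      refine ⟨?_, ?_, Or.inr rfl, ?_, ?_, ⟨w', Or.inr ⟨rfl, rfl⟩⟩⟩
      · rintro p q (e | ⟨rfl, rfl⟩)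
        · exact e.2
        · exact ⟨Or.inr rfl, Or.inl hw'⟩
      · rintro p (e | ⟨e1, e2⟩)
        · exact h.loop p e.1
        · exact hms (e2.symm.trans e1)
      · intro v hv
        have claim : ∀ v, ReflTransGen E v a → v ∈ S₁ →
            ReflTransGen (fun p q => Res E S₁ p q ∨ (p = s ∧ q = w')) v s := by
          intro v hva
          induction hva using ReflTransGen.head_induction_on with
          | refl =>
            rintro (e | e)
            · exact absurd e haW
            · exact absurd e.symm hsa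
          | @head p c hpc _ ih =>
            intro hp
            rcases hp with hp | rfl
            · rcases hcl p c hp hpc with e | e
              · exact (ih (Or.inl e)).head (Or.inl ⟨hpc, Or.inl hp, Or.inl e⟩)
              · subst e
                exact ReflTransGen.single (Or.inl ⟨hpc, Or.inl hp, Or.inr rfl⟩)
            · exact ReflTransGen.refl
        have hvS : v ∈ S := hS₁S.1 hv
        exact claim v (h.reach v hvS) hv
      · intro v hv hvs
        rcases hv with hv | hv
        · obtain ⟨p, q, hpq, hp, hq⟩ := h.deg v (hWS hv) (fun e => haW (e ▸ hv))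
          exact ⟨p, q, hpq, Or.inl ⟨hp, Or.inl hv, hcl v p hv hp⟩,
            Or.inl ⟨hq, Or.inl hv, hcl v q hv hq⟩⟩
        · exact absurd hv hvs
    obtain ⟨b, hb⟩ := hgood
    have hmS₁ : ∀ z ∈ m, z ∉ S₁ := by
      rintro z hz (e | e)
      · exact hm z hz e
      · exact p2'.not_mem_left (e ▸ hz)
    have hl₁S₁ : ∀ z ∈ l₁, z ∉ S₁ := by
      rintro z hz (e | e)
      · exact hl1W z hz e
      · exact p1.not_mem_left (e ▸ hz)
    have hmS : ∀ z ∈ m, z ∈ S := p2'.forall_int (fun p q e => (h.supp p q e).2)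
    have hl₁S : ∀ z ∈ l₁, z ∈ S := p1.forall_int (fun p q e => (h.supp p q e).2)
    have hK1 : HasK3 (fun p q => (E p q ∨ (p = s ∧ q = b)) ∨ (p = s ∧ q = w')) S₁ := by
      refine hb.mono ?_ (subset_refl _)
      rintro p q _ _ _ ((e | e) | e)
      · exact Or.inl (Or.inl e.1)
      · exact Or.inr e
      · exact Or.inl (Or.inr e)
    have hK2 : HasK3 (fun p q => E p q ∨ (p = s ∧ q = b)) {z | z ∈ S₁ ∨ z ∈ m} :=
      hK1.lift (E' := fun p q => E p q ∨ (p = s ∧ q = b)) (fun _ _ _ _ _ e => e) m
        (p2'.1.imp (fun _ _ e => Or.inl e)) p2'.nodup_int hmS₁ (fun z hz => Or.inl hz)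
        (fun z hz => Or.inr hz)
    apply hng
    by_cases hba : b = a
    · subst hba
      refine ⟨b, hK2.lift (E' := fun p q => E p q ∨ (p = b ∧ q = b)) (fun _ _ _ _ _ e => Or.inl e) l₁
        (p1.1.imp (fun _ _ e => Or.inl e)) p1.nodup_int ?_ ?_ hl₁S⟩
      · rintro z hz (e | e)
        · exact hl₁S₁ z hz e
        · exact hd z hz (hmsub z e)
      · rintro z (e | e)
        · exact hS₁S.1 e
        · exact hmS z e
    · refine ⟨b, hK2.lift (E' := fun p q => E p q ∨ (p = a ∧ q = b)) (fun _ _ _ _ _ e => Or.inl e)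
        (l₁ ++ [a]) ?_ ?_ ?_ ?_ ?_⟩
      · have e : s :: ((l₁ ++ [a]) ++ [b]) = (s :: l₁) ++ a :: [b] := by simp
        rw [e, isChain_split]
        refine ⟨?_, by simp⟩
        have := p1.1.imp (S := fun p q => E p q ∨ (p = a ∧ q = b)) (fun _ _ e => Or.inl e)
        simpa using this
      · have := p1.2
        rw [nodup_cons] at this
        exact this.2
      · intro z hz
        rcases mem_append.1 hz with hz | hz
        · rintro (e | e)
          · exact hl₁S₁ z hz e
          · exact hd z hz (hmsub z e)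
        · simp at hz
          subst hz
          rintro (e | e)
          · rcases e with e | e
            · exact haW e
            · exact hsa e.symm
          · exact ham e
      · rintro z (e | e)
        · exact hS₁S.1 e
        · exact hmS z e
      · intro z hz
        rcases mem_append.1 hz with hz | hz
        · exact hl₁S z hz
        · simp at hz
          subst hz
          exact h.ha
  · -- `a` separates `s` from `W s`
    push Not at hreach
    set S' : Set V := {v | ReflTransGen (fun p q => E p q ∧ p ≠ a ∧ q ≠ a) s v} with hS'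
    set S₁ : Set V := {v | v ∈ S' ∨ v = a} with hS₁
    have hS'S : ∀ v ∈ S', v ∈ S := by
      intro v hv
      have : ReflTransGen (fun p q => E p q ∧ p ≠ a ∧ q ≠ a) s v := hv
      rcases ReflTransGen.cases_tail this with e | ⟨c, _, hc⟩
      · rw [e]; exact hsS
      · exact (h.supp _ _ hc.1).2
    have haS' : a ∉ S' := by
      intro hv
      have : ReflTransGen (fun p q => E p q ∧ p ≠ a ∧ q ≠ a) s a := hv
      rcases ReflTransGen.cases_tail this with e | ⟨c, _, hc⟩
      · exact hsa e.symm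
      · exact hc.2.2 rfl
    have hsS' : s ∈ S' := ReflTransGen.refl
    have hS'W : ∀ v ∈ S', v ∉ W E S a s := fun v hv hvW => hreach v hvW hv
    have hS'cl : ∀ p q, p ∈ S' → E p q → q ∈ S' ∨ q = a := by
      intro p q hp hpq
      by_cases hqa : q = a
      · exact Or.inr hqa
      · exact Or.inl (ReflTransGen.tail hp ⟨hpq, fun e => haS' (e ▸ hp), hqa⟩)
    have hWS₁ : ∀ v ∈ W E S a s, v ∉ S₁ := by
      rintro v hv (e | e)
      · exact hS'W v e hv
      · exact haW (e ▸ hv)
    have hS₁S : S₁ ⊂ S := by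
      refine ⟨?_, ?_⟩
      · rintro v (hv | rfl)
        · exact hS'S v hv
        · exact h.ha
      · intro hh
        exact hWS₁ w₀ hw₀ (hh (hWS hw₀))
    have hgood : Good (fun p q => Res E S₁ p q ∨ (p = a ∧ q = s)) S₁ a := by
      refine ih _ _ _ (Set.ncard_lt_ncard hS₁S (Set.toFinite _)) ?_
      refine ⟨?_, ?_, Or.inr rfl, ?_, ?_, ⟨s, Or.inr ⟨rfl, rfl⟩⟩⟩
      · rintro p q (e | ⟨rfl, rfl⟩)
        · exact e.2
        · exact ⟨Or.inr rfl, Or.inl hsS'⟩
      · rintro p (e | ⟨e1, e2⟩)
        · exact h.loop p e.1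
        · exact hsa (e2.symm.trans e1)
      · intro v hv
        have claim : ∀ v, ReflTransGen E v a → v ∈ S₁ →
            ReflTransGen (fun p q => Res E S₁ p q ∨ (p = a ∧ q = s)) v a := by
          intro v hva
          induction hva using ReflTransGen.head_induction_on with
          | refl => intro _; exact ReflTransGen.refl
          | @head p c hpc _ ih =>
            intro hp
            rcases hp with hp | rfl
            · have hc := hS'cl p c hp hpc
              exact (ih hc).head (Or.inl ⟨hpc, Or.inl hp, hc⟩)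
            · exact ReflTransGen.refl
        exact claim v (h.reach v (hS₁S.1 hv)) hv
      · intro v hv hva
        rcases hv with hv | hv
        · obtain ⟨p, q, hpq, hp, hq⟩ := h.deg v (hS'S v hv) hva
          exact ⟨p, q, hpq, Or.inl ⟨hp, Or.inl hv, hS'cl v p hv hp⟩,
            Or.inl ⟨hq, Or.inl hv, hS'cl v q hv hq⟩⟩
        · exact absurd hv hva
    obtain ⟨b, hb⟩ := hgood
    set ρ : V → V → Prop := fun p q => E p q ∧ (p = a ∨ p ∉ S₁) with hρ
    have h1 : ∀ x, ReflTransGen E a x → x ∉ S₁ → ReflTransGen ρ a x := by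
      intro x hx
      induction hx with
      | refl => intro _; exact ReflTransGen.refl
      | @tail c x _ hcx ih =>
        intro hxS
        by_cases hca : c = a
        · subst hca
          exact ReflTransGen.single ⟨hcx, Or.inl rfl⟩
        · have hcS : c ∉ S₁ := by
            rintro (e | e)
            · exact hxS (hS'cl c x e hcx)
            · exact hca e
          exact (ih hcS).tail ⟨hcx, Or.inr hcS⟩
    have h2 : ∀ v, ReflTransGen E v a → v ∈ W E S a s → ReflTransGen ρ v s := by
      intro v hva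
      induction hva using ReflTransGen.head_induction_on with
      | refl => intro e; exact absurd e haW
      | @head p c hpc _ ih =>
        intro hp
        rcases hcl p c hp hpc with e | e
        · exact (ih e).head ⟨hpc, Or.inr (hWS₁ p hp)⟩
        · subst e
          exact ReflTransGen.single ⟨hpc, Or.inr (hWS₁ p hp)⟩
    have h3 : ReflTransGen ρ a s := (h1 w₀ (hstr w₀ (hWS hw₀)) (hWS₁ w₀ hw₀)).trans
      (h2 w₀ (h.reach w₀ (hWS hw₀)) hw₀)
    obtain ⟨m, hm⟩ := exists_pth' h3 hsa.symm
    have hmS₁ : ∀ z ∈ m, z ∉ S₁ := by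
      intro z hz
      rcases hm.forall_int_tail (P := fun z => z = a ∨ z ∉ S₁) (fun p q e => e.2) z hz with e | e
      · exact absurd (e ▸ hz) hm.not_mem_left
      · exact e
    have hmS : ∀ z ∈ m, z ∈ S := hm.forall_int (fun p q e => (h.supp p q e.1).2)
    have hK1 : HasK3 (fun p q => (E p q ∨ (p = a ∧ q = b)) ∨ (p = a ∧ q = s)) S₁ := by
      refine hb.mono ?_ (subset_refl _)
      rintro p q _ _ _ ((e | e) | e)
      · exact Or.inl (Or.inl e.1)
      · exact Or.inr e
      · exact Or.inl (Or.inr e)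
    exact hng ⟨b, hK1.lift (E' := fun p q => E p q ∨ (p = a ∧ q = b)) (fun _ _ _ _ _ e => e) m
        (hm.1.imp (fun _ _ e => Or.inl e.1)) hm.nodup_int hmS₁ hS₁S.1 hmS⟩

theorem exists_indeg_one [Finite V] (h : Hyp E S a)
    (h2 : ∀ v p q r, v ≠ a → E v p → E v q → E v r → p = q ∨ p = r ∨ q = r)
    (h1 : ∀ p q, E a p → E a q → p = q) : ∃ u ∈ S, ∀ p q, E p u → E q u → p = q := by
  classical
  by_contra hcon
  push Not at hcon
  have := Fintype.ofFinite V
  set T : Finset V := S.toFinset with hT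
  have hmT : ∀ v, v ∈ T ↔ v ∈ S := fun v => Set.mem_toFinset
  have hdc := Finset.sum_card_bipartiteAbove_eq_sum_card_bipartiteBelow (s := T) (t := T) (r := E)
  have haT : a ∈ T := (hmT a).2 h.ha
  have hR : 2 * T.card ≤ ∑ b ∈ T, (T.bipartiteBelow E b).card := by
    rw [mul_comm, ← smul_eq_mul]
    refine Finset.card_nsmul_le_sum _ _ _ ?_
    intro u hu
    obtain ⟨p, q, hp, hq, hpq⟩ := hcon u ((hmT u).1 hu)
    exact Finset.one_lt_card.2 ⟨p, Finset.mem_filter.2 ⟨(hmT p).2 (h.supp _ _ hp).1, hp⟩, q,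
      Finset.mem_filter.2 ⟨(hmT q).2 (h.supp _ _ hq).1, hq⟩, hpq⟩
  have hL : ∑ v ∈ T, (T.bipartiteAbove E v).card ≤ 1 + 2 * (T.card - 1) := by
    rw [← Finset.add_sum_erase T _ haT]
    refine add_le_add ?_ ?_
    · rw [Finset.card_le_one]
      intro p hp q hq
      exact h1 p q (Finset.mem_filter.1 hp).2 (Finset.mem_filter.1 hq).2
    · rw [← Finset.card_erase_of_mem haT, mul_comm, ← smul_eq_mul]
      refine Finset.sum_le_card_nsmul _ _ _ ?_
      intro v hv
      by_contra hc
      obtain ⟨p, hp, q, hq, r, hr, hpq, hpr, hqr⟩ := Finset.two_lt_card.1 (not_le.1 hc)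
      rcases h2 v p q r (Finset.ne_of_mem_erase hv) (Finset.mem_filter.1 hp).2
        (Finset.mem_filter.1 hq).2 (Finset.mem_filter.1 hr).2 with e | e | e
      · exact hpq e
      · exact hpr e
      · exact hqr e
  have hpos : 0 < T.card := Finset.card_pos.2 ⟨a, haT⟩
  omega

/-- The last configuration. -/
theorem last_config {s t u : V} {l : List V}
    (hch : (s :: (l ++ [t])).IsChain (fun p q => E p q ∨ (p = s ∧ q = u)))
    (hts : E t s) (htu : E t u) (hus : E u s) (hut : E u t) (hst : s ≠ t) (hsu : s ≠ u)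
    (htu' : t ≠ u) (hsl : s ∉ l) (htl : t ∉ l) (hul : u ∉ l) (hln : l.Nodup)
    (hsS : s ∈ S) (htS : t ∈ S) (hu : u ∈ S) (hlS : ∀ z ∈ l, z ∈ S) :
    HasK3 (fun p q => E p q ∨ (p = s ∧ q = u)) S := by
  refine HasK3.of_int ![s, t, u] ![![[], l, []], ![[], [], []], ![[], [], []]] ?_ ?_ ?_ ?_ ?_ ?_ ?_
  · intro i j hij
    have h1 := hst.symm
    have h2 := hsu.symm
    have h3 := htu'.symm
    fin_cases i <;> fin_cases j <;>
      first | rfl | exact absurd hij hst | exact absurd hij hsu | exact absurd hij htu' | exact absurd hij h1 | exact absurd hij h2 | exact absurd hij h3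
  · intro i j hij
    fin_cases i <;> fin_cases j
    · exact absurd rfl hij
    · exact hch
    · simp
    · simpa using Or.inl hts
    · exact absurd rfl hij
    · simpa using Or.inl htu
    · simpa using Or.inl hus
    · simpa using Or.inl hut
    · exact absurd rfl hij
  · intro i j _
    fin_cases i <;> fin_cases j <;> first | exact hln | exact List.nodup_nil
  · intro i j k _
    fin_cases i <;> fin_cases j <;> fin_cases k <;>
      first | exact hsl | exact htl | exact hul | exact List.not_mem_nil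
  · intro i j k l' hij hkl hne z hz hz'
    have key : ∀ i j : Fin 3, z ∈ (![![[], l, []], ![[], [], []], ![[], [], []]] :
        Fin 3 → Fin 3 → List V) i j → i = 0 ∧ j = 1 := by
      intro i j h
      fin_cases i <;> fin_cases j <;> first | exact ⟨rfl, rfl⟩ | exact absurd h List.not_mem_nil
    obtain ⟨rfl, rfl⟩ := key i j hz
    obtain ⟨rfl, rfl⟩ := key k l' hz'
    exact hne rfl
  · intro k
    fin_cases k
    · exact hsS
    · exact htS
    · exact hu
  · intro i j _
    fin_cases i <;> fin_cases j <;> first | exact hlS | (intro z hz; exact absurd hz List.not_mem_nil)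

/-- Induction step after all reductions. -/
theorem step_ii [Finite V] (ih : IH V S.ncard) (h : Hyp E S a) (hng : ¬ Good E S a)
    (hstr : ∀ x ∈ S, ReflTransGen E a x)
    (hsep : ∀ s v, s ≠ a → v ∈ S → v ≠ s → ReflTransGen (Av E s) v a)
    (h2 : ∀ v p q r, v ≠ a → E v p → E v q → E v r → p = q ∨ p = r ∨ q = r)
    (h1 : ∀ p q, E a p → E a q → p = q) : False := by
  classical
  obtain ⟨u, hu, huu⟩ := exists_indeg_one h h2 h1
  obtain ⟨a', haa'⟩ := h.dega
  have ha'S : a' ∈ S := (h.supp _ _ haa').2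
  have ha'a : a' ≠ a := by rintro rfl; exact h.loop _ haa'
  -- an in-neighbour of `u`
  obtain ⟨t, htu⟩ : ∃ t, E t u := by
    by_cases hua : u = a
    · rcases ReflTransGen.cases_tail (h.reach a' ha'S) with e | ⟨c, _, hc⟩
      · exact absurd e.symm ha'a
      · exact ⟨c, by rw [hua]; exact hc⟩
    · rcases ReflTransGen.cases_tail (hstr u hu) with e | ⟨c, _, hc⟩
      · exact absurd e hua
      · exact ⟨c, hc⟩
  have htS : t ∈ S := (h.supp _ _ htu).1
  have htu' : t ≠ u := by rintro rfl; exact h.loop _ htu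
  set S₁ : Set V := S \ {u} with hS₁
  have hS₁S : S₁ ⊂ S := ⟨fun x hx => hx.1, fun hh => (hh hu).2 rfl⟩
  have hlt : S₁.ncard < S.ncard := Set.ncard_lt_ncard hS₁S (Set.toFinite _)
  have huS₁ : u ∉ S₁ := fun hh => hh.2 rfl
  by_cases hua : u = a
  · -- Case `u = a`
    subst hua
    have hgood : Good (Res E S₁) S₁ t := by
      refine ih _ _ _ hlt ?_
      refine ⟨fun p q e => e.2, fun p e => h.loop p e.1, ⟨htS, htu'⟩, ?_, ?_, ?_⟩
      · intro v hv
        have claim : ∀ v, ReflTransGen E v u → v ≠ u → ReflTransGen (Res E S₁) v t := by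
          intro v hva
          induction hva using ReflTransGen.head_induction_on with
          | refl => intro e; exact absurd rfl e
          | @head p c hpc _ ih =>
            intro hp
            by_cases hc : c = u
            · subst hc
              rw [huu p t hpc htu]
            · exact (ih hc).head ⟨hpc, ⟨(h.supp _ _ hpc).1, hp⟩, ⟨(h.supp _ _ hpc).2, hc⟩⟩
        exact claim v (h.reach v hv.1) hv.2
      · intro v hv hvt
        obtain ⟨p, q, hpq, hp, hq⟩ := h.deg v hv.1 hv.2
        have hpu : p ≠ u := by rintro rfl; exact hvt (huu _ _ hp htu)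
        have hqu : q ≠ u := by rintro rfl; exact hvt (huu _ _ hq htu)
        exact ⟨p, q, hpq, ⟨hp, hv, (h.supp _ _ hp).2, hpu⟩, ⟨hq, hv, (h.supp _ _ hq).2, hqu⟩⟩
      · obtain ⟨p, q, hpq, hp, hq⟩ := h.deg t htS htu'
        by_cases hpu : p = u
        · have hqu : q ≠ u := fun e => hpq (hpu.trans e.symm)
          exact ⟨q, hq, ⟨htS, htu'⟩, (h.supp _ _ hq).2, hqu⟩
        · exact ⟨p, hp, ⟨htS, htu'⟩, (h.supp _ _ hp).2, hpu⟩
    obtain ⟨b, hb⟩ := hgood
    refine hng ⟨b, HasK3.lift (E := Res E S₁) (E' := fun p q => E p q ∨ (p = u ∧ q = b)) hb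
      (fun _ _ _ _ _ e => Or.inl e.1) [u] ?_ (by simp) ?_ hS₁S.1 ?_⟩
    · simp only [cons_append, nil_append, isChain_cons_cons, isChain_singleton, and_true]
      exact ⟨Or.inl htu, Or.inr (by simp)⟩
    · simpa using huS₁
    · simpa using hu
  -- from now on `u ≠ a`
  obtain ⟨w₁, w₂, hw12, hw₁, hw₂⟩ := h.deg u hu hua
  have hwu : ∀ w, E u w → w ≠ u := by rintro w hw rfl; exact h.loop _ hw
  by_cases hta : t = a
  · -- Case `t = a`
    subst hta
    obtain ⟨w, huw, hwt⟩ : ∃ w, E u w ∧ w ≠ t := by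
      by_cases e : w₁ = t
      · exact ⟨w₂, hw₂, fun e' => hw12 (e.trans e'.symm)⟩
      · exact ⟨w₁, hw₁, e⟩
    have hwS₁ : w ∈ S₁ := ⟨(h.supp _ _ huw).2, hwu w huw⟩
    have htS₁ : t ∈ S₁ := ⟨htS, htu'⟩
    have hgood : Good (fun p q => Res E S₁ p q ∨ (p = t ∧ q = w)) S₁ t := by
      refine ih _ _ _ hlt ?_
      refine ⟨?_, ?_, htS₁, ?_, ?_, ⟨w, Or.inr ⟨rfl, rfl⟩⟩⟩
      · rintro p q (e | ⟨rfl, rfl⟩)
        · exact e.2
        · exact ⟨htS₁, hwS₁⟩
      · rintro p (e | ⟨e1, e2⟩)
        · exact h.loop p e.1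
        · exact hwt (e2.symm.trans e1)
      · intro v hv
        have claim : ∀ v, ReflTransGen E v t → v ≠ u →
            ReflTransGen (fun p q => Res E S₁ p q ∨ (p = t ∧ q = w)) v t := by
          intro v hva
          induction hva using ReflTransGen.head_induction_on with
          | refl => intro _; exact ReflTransGen.refl
          | @head p c hpc _ ih =>
            intro hp
            by_cases hc : c = u
            · subst hc
              rw [huu p t hpc htu]
            · exact (ih hc).head (Or.inl ⟨hpc, ⟨(h.supp _ _ hpc).1, hp⟩, ⟨(h.supp _ _ hpc).2, hc⟩⟩)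
        exact claim v (h.reach v hv.1) hv.2
      · intro v hv hvt
        obtain ⟨p, q, hpq, hp, hq⟩ := h.deg v hv.1 hvt
        have hpu : p ≠ u := by rintro rfl; exact hvt (huu _ _ hp htu)
        have hqu : q ≠ u := by rintro rfl; exact hvt (huu _ _ hq htu)
        exact ⟨p, q, hpq, Or.inl ⟨hp, hv, (h.supp _ _ hp).2, hpu⟩,
          Or.inl ⟨hq, hv, (h.supp _ _ hq).2, hqu⟩⟩
    obtain ⟨b, hb⟩ := hgood
    have hK1 : HasK3 (fun p q => (E p q ∨ (p = t ∧ q = b)) ∨ (p = t ∧ q = w)) S₁ := by
      refine hb.mono ?_ (subset_refl _)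
      rintro p q _ _ _ ((e | e) | e)
      · exact Or.inl (Or.inl e.1)
      · exact Or.inr e
      · exact Or.inl (Or.inr e)
    refine hng ⟨b, hK1.lift (E' := fun p q => E p q ∨ (p = t ∧ q = b)) (fun _ _ _ _ _ e => e) [u]
      ?_ (by simp) ?_ hS₁S.1 ?_⟩
    · simp only [cons_append, nil_append, isChain_cons_cons, isChain_singleton, and_true]
      exact ⟨Or.inl htu, Or.inl huw⟩
    · simpa using huS₁
    · simpa using hu
  -- Case `t ≠ a`
  obtain ⟨s, hts, hsu⟩ : ∃ s, E t s ∧ s ≠ u := by
    obtain ⟨p, q, hpq, hp, hq⟩ := h.deg t htS hta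
    by_cases e : p = u
    · exact ⟨q, hq, fun e' => hpq (e.trans e'.symm)⟩
    · exact ⟨p, hp, e⟩
  have htout : ∀ q, E t q → q = u ∨ q = s := by
    intro q hq
    rcases h2 t u s q hta htu hts hq with e | e | e
    · exact absurd e.symm hsu
    · exact Or.inl e.symm
    · exact Or.inr e.symm
  have hsS : s ∈ S := (h.supp _ _ hts).2
  have hst : s ≠ t := by rintro rfl; exact h.loop _ hts
  by_cases hw : ∃ w, E u w ∧ w ≠ t ∧ w ≠ s
  · obtain ⟨w, huw, hwt, hws⟩ := hw
    have hwS₁ : w ∈ S₁ := ⟨(h.supp _ _ huw).2, hwu w huw⟩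
    have htS₁ : t ∈ S₁ := ⟨htS, htu'⟩
    have haS₁ : a ∈ S₁ := ⟨h.ha, fun e => hua e.symm⟩
    have hgood : Good (fun p q => Res E S₁ p q ∨ (p = t ∧ q = w)) S₁ a := by
      refine ih _ _ _ hlt ?_
      refine ⟨?_, ?_, haS₁, ?_, ?_, ?_⟩
      · rintro p q (e | ⟨rfl, rfl⟩)
        · exact e.2
        · exact ⟨htS₁, hwS₁⟩
      · rintro p (e | ⟨e1, e2⟩)
        · exact h.loop p e.1
        · exact hwt (e2.symm.trans e1)
      · intro v hv
        refine ReflTransGen.mono ?_ _ _ (hsep u v hua hv.1 hv.2)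
        intro p q hpq
        exact Or.inl ⟨hpq.1, ⟨(h.supp _ _ hpq.1).1, hpq.2.1⟩, ⟨(h.supp _ _ hpq.1).2, hpq.2.2⟩⟩
      · intro v hv hva
        by_cases hvt : v = t
        · subst hvt
          exact ⟨s, w, hws.symm, Or.inl ⟨hts, hv, hsS, hsu⟩, Or.inr ⟨rfl, rfl⟩⟩
        · obtain ⟨p, q, hpq, hp, hq⟩ := h.deg v hv.1 hva
          have hpu : p ≠ u := by rintro rfl; exact hvt (huu _ _ hp htu)
          have hqu : q ≠ u := by rintro rfl; exact hvt (huu _ _ hq htu)
          exact ⟨p, q, hpq, Or.inl ⟨hp, hv, (h.supp _ _ hp).2, hpu⟩,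
            Or.inl ⟨hq, hv, (h.supp _ _ hq).2, hqu⟩⟩
      · have ha'u : a' ≠ u := by rintro rfl; exact hta (huu _ _ htu haa')
        exact ⟨a', Or.inl ⟨haa', haS₁, ha'S, ha'u⟩⟩
    obtain ⟨b, hb⟩ := hgood
    have hK1 : HasK3 (fun p q => (E p q ∨ (p = a ∧ q = b)) ∨ (p = t ∧ q = w)) S₁ := by
      refine hb.mono ?_ (subset_refl _)
      rintro p q _ _ _ ((e | e) | e)
      · exact Or.inl (Or.inl e.1)
      · exact Or.inr e
      · exact Or.inl (Or.inr e)
    refine hng ⟨b, hK1.lift (E' := fun p q => E p q ∨ (p = a ∧ q = b)) (fun _ _ _ _ _ e => e) [u]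
      ?_ (by simp) ?_ hS₁S.1 ?_⟩
    · simp only [cons_append, nil_append, isChain_cons_cons, isChain_singleton, and_true]
      exact ⟨Or.inl htu, Or.inl huw⟩
    · simpa using huS₁
    · simpa using hu
  · push Not at hw
    have huout : ∀ w, E u w → w = t ∨ w = s := by
      intro w huw
      by_cases e : w = t
      · exact Or.inl e
      · exact Or.inr (hw w huw e)
    have hut : E u t := by
      rcases huout w₁ hw₁ with e | e
      · exact e ▸ hw₁
      · rcases huout w₂ hw₂ with e' | e'
        · exact e' ▸ hw₂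
        · exact absurd (e.trans e'.symm) hw12
    have hus : E u s := by
      rcases huout w₁ hw₁ with e | e
      · rcases huout w₂ hw₂ with e' | e'
        · exact absurd (e.trans e'.symm) hw12
        · exact e' ▸ hw₂
      · exact e ▸ hw₁
    -- `s = a`
    have hsa : s = a := by
      by_contra hsa
      have h3 := hsep s t hsa htS (Ne.symm hst)
      have claim : ∀ x, ReflTransGen (Av E s) t x → x = t ∨ x = u := by
        intro x hx
        induction hx with
        | refl => exact Or.inl rfl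
        | @tail c x _ hcx ih =>
          rcases ih with rfl | rfl
          · rcases htout x hcx.1 with e | e
            · exact Or.inr e
            · exact absurd e hcx.2.2
          · rcases huout x hcx.1 with e | e
            · exact Or.inl e
            · exact absurd e hcx.2.2
      rcases claim a h3 with e | e
      · exact hta e.symm
      · exact hua e.symm
    subst hsa
    -- a path from `a = s` to `t` avoiding `u`
    have h3 : ∀ x, ReflTransGen E s x → ReflTransGen (fun p q => E p q ∧ q ≠ u) s x ∨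
        ReflTransGen (fun p q => E p q ∧ q ≠ u) s t := by
      intro x hx
      induction hx with
      | refl => exact Or.inl ReflTransGen.refl
      | @tail c x _ hcx ih =>
        rcases ih with e | e
        · by_cases hxu : x = u
          · subst hxu
            rw [huu c t hcx htu] at e
            exact Or.inr e
          · exact Or.inl (e.tail ⟨hcx, hxu⟩)
        · exact Or.inr e
    have h4 : ReflTransGen (fun p q => E p q ∧ q ≠ u) s t := by
      rcases h3 t (hstr t htS) with e | e <;> exact e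
    obtain ⟨l, hl⟩ := exists_pth' h4 hst
    have hul : u ∉ l := fun e => hl.forall_int (P := fun z => z ≠ u) (fun p q e => e.2) u e rfl
    have hsl := hl.not_mem_left
    have htl := hl.not_mem_right
    have hln := hl.nodup_int
    have hlS : ∀ z ∈ l, z ∈ S := hl.forall_int (fun p q e => (h.supp _ _ e.1).2)
    have hch := hl.1.imp (S := fun p q => E p q ∨ (p = s ∧ q = u)) (fun _ _ e => Or.inl e.1)
    exact hng ⟨u, last_config hch hts htu hus hut hst hsu htu' hsl htl hul hln hsS htS hu hlS⟩

/-- Theorem `T6''`. -/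
theorem t6_aux [Finite V] : ∀ (n : ℕ) (E : V → V → Prop) (S : Set V) (a : V), S.ncard = n →
    Hyp E S a → Good E S a := by
  intro n
  induction n using Nat.strong_induction_on with
  | _ n IHn =>
    intro E S a hn h
    have ih : IH V S.ncard := fun E' S' a' hlt h' => IHn S'.ncard (hn ▸ hlt) E' S' a' rfl h'
    obtain ⟨E', hE', h', h2, h1⟩ := exists_thin h
    refine hasK3_of_good_mono (E₁ := E') (S₁ := S) ?_ hE' (subset_refl _)
    by_contra hng
    have hstr := strong_red ih h' hng
    exact step_ii ih h' hng hstr (fun s v hs hv hvs => step_i ih h' hng hstr hs hv hvs) h2 h1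

end Pool.Agent.Mader.T6b

namespace Pool.Agent.Mader

open Relation

/-- Theorem `T6''`: if every vertex reaches `a`, all out-degrees off `a` are at least two and the
out-degree of `a` is at least one, then adding one arc from `a` gives a subdivision. -/
theorem t6 {V : Type*} [Finite V] (E : V → V → Prop) (S : Set V) (a : V)
    (supp : ∀ p q, E p q → p ∈ S ∧ q ∈ S) (loop : ∀ p, ¬ E p p) (ha : a ∈ S)
    (reach : ∀ v ∈ S, ReflTransGen E v a)
    (deg : ∀ v ∈ S, v ≠ a → ∃ p q, p ≠ q ∧ E v p ∧ E v q)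
    (dega : ∃ p, E a p) : Good E S a :=
  T6b.t6_aux _ E S a rfl ⟨supp, loop, ha, reach, deg, dega⟩

end Pool.Agent.Mader
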