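import Pool.Agent.Mader4.Three
import Pool.Agent.Mader.TwoStrong

set_option autoImplicit false

namespace Pool.Agent.Mader

open Relation

/-- A minimum counterexample is 2-strong, in the form used by `col_three_of`. -/
theorem two_strong {V : Type*} [Finite V] (E : V → V → Prop) (S : Set V) (h : MinCex E S)
    (p q z : V) (hp : p ∈ S) (hq : q ∈ S) (hpz : p ≠ z) (hqz : q ≠ z) :
    ReflTransGen (fun a b => E a b ∧ a ≠ z ∧ b ≠ z) p q :=
  MinC.two_strong ⟨h.supp, h.loop, h.nok, h.ncol, h.ih⟩ hp hq hpz hqz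

end Pool.Agent.Mader
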