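import Pool.Agent.Mader4.Transl
import Pool.Agent.Mader4.LemF
import Pool.Agent.Mader4.T6
import Pool.Agent.Mader4.TwoS

set_option autoImplicit false

namespace Pool.Agent.Mader

open Relation

/-- A finite loopless digraph without a subdivision of the bioriented triangle has an acyclic
colouring with three colours. -/
theorem col_three {V : Type*} [Finite V] {E : V → V → Prop} (hloop : ∀ p, ¬ E p p)
    (hno : ¬ HasK3 E Set.univ) : Col E 3 := by
  by_contra hcol
  obtain ⟨E', S', h⟩ := exists_minCex hloop hno hcol
  apply h.ncol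
  refine app h.supp h.loop (fun p hp q hq => h.strong hp hq) h.nok
    (lemF h.supp h.loop (fun z p hp q hq hpz hqz =>
      two_strong E' S' h p q z hp hq hpz hqz) h.nok) ?_
  intro X a hX ha hreach hdeg
  refine t6 (Res E' X) X a (fun p q h => h.2) (fun p hp => h.loop p hp.1) ha hreach
    (fun v hv _ => hdeg v hv) ?_
  obtain ⟨p, _, _, hp, _⟩ := hdeg a ha
  exact ⟨p, hp⟩

end Pool.Agent.Mader
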