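import Pool.Agent.Mader4.LemF

set_option autoImplicit false

namespace Pool.Agent.Mader

open List Relation

variable {V : Type*}

/-- Lemma F in the form used by `col_three_of`. -/
theorem lemF_three [Finite V] (E : V → V → Prop) (S : Set V)
    (hsupp : ∀ p q, E p q → p ∈ S ∧ q ∈ S) (hloop : ∀ p, ¬ E p p)
    (h2 : ∀ p q z : V, p ∈ S → q ∈ S → z ∈ S → p ≠ z → q ≠ z →
      ReflTransGen (fun a b => E a b ∧ a ≠ z ∧ b ≠ z) p q)
    (hno : ¬ HasK3 E S) : ∀ v ∈ S, ∀ u, ¬ TransGen (Res E {w | E v w}) u u := by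
  classical
  intro v hv u hu
  refine lemF hsupp hloop ?_ hno v hv u hu
  intro z p hp q hq hpz hqz
  by_cases hz : z ∈ S
  · exact h2 p q z hp hq hz hpz hqz
  obtain ⟨u', hu', _⟩ := TransGen.head'_iff.1 hu
  have huS : u ∈ S := (hsupp _ _ hu'.1).1
  have huS' : u' ∈ S := (hsupp _ _ hu'.1).2
  have h1 : u ≠ u' := fun h => hloop u (by simpa [← h] using hu'.1)
  have h3 : v ≠ u := fun h => hloop v (by simpa [← h] using hu'.2.1)
  have h4 : v ≠ u' := fun h => hloop v (by simpa [← h] using hu'.2.2)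
  have key : ∀ w, w ∈ S → p ≠ w → q ≠ w →
      ReflTransGen (fun a b => E a b ∧ a ≠ z ∧ b ≠ z) p q := by
    intro w hw hpw hqw
    refine ReflTransGen.mono ?_ _ _ (h2 p q w hp hq hw hpw hqw)
    intro a b h
    obtain ⟨ha, hb⟩ := hsupp a b h.1
    exact ⟨h.1, fun e => hz (e ▸ ha), fun e => hz (e ▸ hb)⟩
  by_cases hpq : p = q
  · rw [hpq]
  by_cases c1 : p ≠ v ∧ q ≠ v
  · exact key v hv c1.1 c1.2
  by_cases c2 : p ≠ u ∧ q ≠ u
  · exact key u huS c2.1 c2.2
  · refine key u' huS' ?_ ?_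
    · rintro rfl
      apply c1
      refine ⟨h4.symm, ?_⟩
      rintro rfl
      exact c2 ⟨h1.symm, h3⟩
    · rintro rfl
      apply c1
      refine ⟨?_, h4.symm⟩
      rintro rfl
      exact c2 ⟨h3, h1.symm⟩

end Pool.Agent.Mader
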