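import Pool.Agent.Mader.Main

set_option autoImplicit false

namespace Pool.Agent.Mader

open List Relation

variable {V : Type*}

/-- If out-degrees are at most two and at most one at `a`, some vertex of `S` has at most one
in-neighbour. -/
theorem exists_indeg_le_one [Finite V] {E : V → V → Prop} {S : Set V} {a : V}
    (supp : ∀ p q, E p q → p ∈ S ∧ q ∈ S) (ha : a ∈ S)
    (hout : ∀ v ∈ S, v ≠ a → ∃ p q, ∀ r, E v r → r = p ∨ r = q)
    (houta : ∃ p, ∀ r, E a r → r = p) :
    ∃ u ∈ S, ∀ p q, E p u → E q u → p = q := by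
  classical
  cases nonempty_fintype V
  by_contra hcon
  push Not at hcon
  set T : Finset V := S.toFinset with hT
  have hmem : ∀ v, v ∈ T ↔ v ∈ S := fun v => by simp [hT]
  have hdc := Finset.sum_card_bipartiteAbove_eq_sum_card_bipartiteBelow (s := T) (t := T) E
  have h1 : ∑ v ∈ T, (Finset.bipartiteAbove E T v).card ≤ 1 + (T.card - 1) * 2 := by
    rw [← Finset.add_sum_erase T _ ((hmem a).2 ha)]
    refine Nat.add_le_add ?_ ?_
    · obtain ⟨p, hp⟩ := houta
      have : Finset.bipartiteAbove E T a ⊆ {p} := by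
        intro r hr
        rw [Finset.mem_bipartiteAbove] at hr
        rw [Finset.mem_singleton]
        exact hp r hr.2
      exact (Finset.card_le_card this).trans (by simp)
    · refine (Finset.sum_le_card_nsmul _ _ 2 ?_).trans ?_
      · intro v hv
        rw [Finset.mem_erase] at hv
        obtain ⟨p, q, hpq⟩ := hout v ((hmem v).1 hv.2) hv.1
        have : Finset.bipartiteAbove E T v ⊆ {p, q} := by
          intro r hr
          rw [Finset.mem_bipartiteAbove] at hr
          rw [Finset.mem_insert, Finset.mem_singleton]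
          exact hpq r hr.2
        exact (Finset.card_le_card this).trans Finset.card_le_two
      · rw [Finset.card_erase_of_mem ((hmem a).2 ha)]
        simp
  have h2 : T.card * 2 ≤ ∑ v ∈ T, (Finset.bipartiteBelow E T v).card := by
    rw [← smul_eq_mul]
    refine Finset.card_nsmul_le_sum _ _ _ ?_
    intro v hv
    obtain ⟨p, q, hp, hq, hpq⟩ := hcon v ((hmem v).1 hv)
    have : 1 < (Finset.bipartiteBelow E T v).card := by
      rw [Finset.one_lt_card]
      refine ⟨p, ?_, q, ?_, hpq⟩
      · rw [Finset.mem_bipartiteBelow]; exact ⟨(hmem p).2 (supp _ _ hp).1, hp⟩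
      · rw [Finset.mem_bipartiteBelow]; exact ⟨(hmem q).2 (supp _ _ hq).1, hq⟩
    exact this
  have h3 : 0 < T.card := Finset.card_pos.2 ⟨a, (hmem a).2 ha⟩
  omega

/-- Part (ii) of the rooted degree theorem. -/
theorem t6_ii [Finite V] {E : V → V → Prop} {S : Set V} {a : V}
    (supp : ∀ p q, E p q → p ∈ S ∧ q ∈ S) (loop : ∀ p, ¬ E p p) (ha : a ∈ S)
    (hra : ∀ v ∈ S, ReflTransGen E v a) (har : ∀ v ∈ S, ReflTransGen E a v)
    (hout : ∀ v ∈ S, v ≠ a → ∃ p q, p ≠ q ∧ E v p ∧ E v q ∧ ∀ r, E v r → r = p ∨ r = q)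
    (houta : ∃ p, E a p ∧ ∀ r, E a r → r = p)
    (hav : ∀ s v, s ≠ a → v ≠ s → v ∈ S →
      ReflTransGen (fun p q => E p q ∧ p ≠ s ∧ q ≠ s) v a)
    (ih : ∀ (E' : V → V → Prop) (S' : Set V) (a' : V), S'.ncard < S.ncard →
      (∀ p q, E' p q → p ∈ S' ∧ q ∈ S') → (∀ p, ¬ E' p p) → a' ∈ S' →
      (∀ v ∈ S', ReflTransGen E' v a') →
      (∀ v ∈ S', v ≠ a' → ∃ p q, p ≠ q ∧ E' v p ∧ E' v q) → (∃ p, E' a' p) → Good E' S' a') :
    Good E S a := by
  classical
  -- a vertex with exactly one in-neighbour
  obtain ⟨u, huS, hu⟩ := exists_indeg_le_one (a := a) supp ha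
    (fun v hv hva => by
      obtain ⟨p, q, _, _, _, h⟩ := hout v hv hva
      exact ⟨p, q, h⟩)
    (by obtain ⟨p, _, h⟩ := houta; exact ⟨p, h⟩)
  obtain ⟨a₁, haa₁, ha₁⟩ := houta
  have ha₁S : a₁ ∈ S := (supp _ _ haa₁).2
  have ha₁a : a₁ ≠ a := fun h => loop a (h ▸ haa₁)
  obtain ⟨t, htu⟩ : ∃ t, E t u := by
    by_cases hua : u = a
    · rcases ReflTransGen.cases_tail (hra a₁ ha₁S) with h | ⟨t, _, h⟩
      · exact absurd h.symm ha₁a
      · exact ⟨t, hua ▸ h⟩
    · rcases ReflTransGen.cases_tail (har u huS) with h | ⟨t, _, h⟩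
      · exact absurd h hua
      · exact ⟨t, h⟩
  have huniq : ∀ p, E p u → p = t := fun p hp => hu p t hp htu
  have htS : t ∈ S := (supp _ _ htu).1
  have htu' : t ≠ u := fun h => loop u (h ▸ htu)
  have hcard : (S \ {u}).ncard < S.ncard := by
    apply Set.ncard_lt_ncard _ (Set.toFinite _)
    exact ⟨fun s hs => hs.1, fun h => (h huS).2 rfl⟩
  by_cases hua : u = a
  · -- case A
    subst hua
    have hreach : ∀ v, ReflTransGen E v u → v = u ∨ ReflTransGen (Res E (S \ {u})) v t := by
      intro v hv
      induction hv using ReflTransGen.head_induction_on with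
      | refl => exact Or.inl rfl
      | @head p c hpc _ ih =>
        by_cases hpu : p = u
        · exact Or.inl hpu
        right
        by_cases hcu : c = u
        · rw [huniq p (hcu ▸ hpc)]
        · rcases ih with e | e
          · exact absurd e hcu
          · exact ReflTransGen.head ⟨hpc, ⟨(supp _ _ hpc).1, hpu⟩, ⟨(supp _ _ hpc).2, hcu⟩⟩ e
    obtain ⟨b, hb⟩ := ih (Res E (S \ {u})) (S \ {u}) t hcard (fun p q h => h.2)
      (fun p h => loop p h.1) ⟨htS, htu'⟩
      (fun v hv => (hreach v (hra v hv.1)).resolve_left hv.2)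
      (fun v hv hvt => by
        obtain ⟨p, q, hpq, hp, hq, _⟩ := hout v hv.1 hv.2
        have h1 : p ≠ u := fun e => hvt (huniq v (e ▸ hp))
        have h2 : q ≠ u := fun e => hvt (huniq v (e ▸ hq))
        exact ⟨p, q, hpq, ⟨hp, hv, ⟨(supp _ _ hp).2, h1⟩⟩, ⟨hq, hv, ⟨(supp _ _ hq).2, h2⟩⟩⟩)
      (by
        obtain ⟨p, q, hpq, hp, hq, _⟩ := hout t htS htu'
        by_cases h1 : p = u
        · exact ⟨q, hq, ⟨htS, htu'⟩, ⟨(supp _ _ hq).2, fun e => hpq (h1.trans e.symm)⟩⟩
        · exact ⟨p, hp, ⟨htS, htu'⟩, ⟨(supp _ _ hp).2, h1⟩⟩)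
    refine ⟨b, ?_⟩
    refine HasK3.lift hb (fun p q _ _ _ h => Or.inl h.1) [u] ?_ (by simp) ?_ (fun s hs => hs.1) ?_
    · simp [htu]
    · intro z hz h
      simp at hz
      exact h.2 hz
    · intro z hz
      simp at hz
      rw [hz]; exact huS
  by_cases hta : t = a
  · -- case B
    subst hta
    obtain ⟨w, huw, hwt⟩ : ∃ w, E u w ∧ w ≠ t := by
      obtain ⟨p, q, hpq, hp, hq, _⟩ := hout u huS hua
      by_cases h1 : p = t
      · exact ⟨q, hq, fun e => hpq (h1.trans e.symm)⟩
      · exact ⟨p, hp, h1⟩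
    have hwu : w ≠ u := fun e => loop u (e ▸ huw)
    have hwS : w ∈ S := (supp _ _ huw).2
    have hreach : ∀ v, ReflTransGen E v t → v = u ∨
        ReflTransGen (fun p q => Res E (S \ {u}) p q ∨ (p = t ∧ q = w)) v t := by
      intro v hv
      induction hv using ReflTransGen.head_induction_on with
      | refl => exact Or.inr ReflTransGen.refl
      | @head p c hpc _ ih =>
        by_cases hpu : p = u
        · exact Or.inl hpu
        right
        by_cases hcu : c = u
        · rw [huniq p (hcu ▸ hpc)]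
        · rcases ih with e | e
          · exact absurd e hcu
          · exact ReflTransGen.head
              (Or.inl ⟨hpc, ⟨(supp _ _ hpc).1, hpu⟩, ⟨(supp _ _ hpc).2, hcu⟩⟩) e
    obtain ⟨b, hb⟩ := ih (fun p q => Res E (S \ {u}) p q ∨ (p = t ∧ q = w)) (S \ {u}) t hcard
      (by
        rintro p q (h | ⟨rfl, rfl⟩)
        · exact h.2
        · exact ⟨⟨htS, htu'⟩, ⟨hwS, hwu⟩⟩)
      (by
        rintro p (h | ⟨h1, h2⟩)
        · exact loop p h.1
        · exact hwt (h2.symm.trans h1)) ⟨htS, htu'⟩
      (fun v hv => (hreach v (hra v hv.1)).resolve_left hv.2)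
      (fun v hv hvt => by
        obtain ⟨p, q, hpq, hp, hq, _⟩ := hout v hv.1 hvt
        have h1 : p ≠ u := fun e => hvt (huniq v (e ▸ hp))
        have h2 : q ≠ u := fun e => hvt (huniq v (e ▸ hq))
        exact ⟨p, q, hpq, Or.inl ⟨hp, hv, ⟨(supp _ _ hp).2, h1⟩⟩,
          Or.inl ⟨hq, hv, ⟨(supp _ _ hq).2, h2⟩⟩⟩)
      ⟨w, Or.inr ⟨rfl, rfl⟩⟩
    have hb' : HasK3 (fun p q => (Res E (S \ {u}) p q ∨ (p = t ∧ q = b)) ∨ (p = t ∧ q = w))
        (S \ {u}) := by
      refine hb.mono ?_ (subset_refl _)
      rintro p q _ _ _ ((h | h) | h)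
      · exact Or.inl (Or.inl h)
      · exact Or.inr h
      · exact Or.inl (Or.inr h)
    refine ⟨b, ?_⟩
    refine HasK3.lift hb' ?_ [u] ?_ (by simp) ?_ (fun s hs => hs.1) ?_
    · rintro p q _ _ _ (h | h)
      · exact Or.inl h.1
      · exact Or.inr h
    · simp [htu, huw]
    · intro z hz h
      simp at hz
      exact h.2 hz
    · intro z hz
      simp at hz
      rw [hz]; exact huS
  · -- case C
    obtain ⟨s, hts, hsu, hts'⟩ : ∃ s, E t s ∧ s ≠ u ∧ ∀ r, E t r → r = u ∨ r = s := by
      obtain ⟨p, q, hpq, hp, hq, h⟩ := hout t htS hta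
      rcases h u htu with e | e
      · subst e
        exact ⟨q, hq, hpq.symm, h⟩
      · subst e
        exact ⟨p, hp, hpq, fun r hr => (h r hr).symm⟩
    have hst : s ≠ t := fun e => loop t (e ▸ hts)
    have hsS : s ∈ S := (supp _ _ hts).2
    by_cases hw : ∃ w, E u w ∧ w ≠ t ∧ w ≠ s
    · obtain ⟨w, huw, hwt, hws⟩ := hw
      have hwu : w ≠ u := fun e => loop u (e ▸ huw)
      have hwS : w ∈ S := (supp _ _ huw).2
      obtain ⟨b, hb⟩ := ih (fun p q => Res E (S \ {u}) p q ∨ (p = t ∧ q = w)) (S \ {u}) a hcard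
        (by
          rintro p q (h | ⟨rfl, rfl⟩)
          · exact h.2
          · exact ⟨⟨htS, htu'⟩, ⟨hwS, hwu⟩⟩)
        (by
          rintro p (h | ⟨h1, h2⟩)
          · exact loop p h.1
          · exact hwt (h2.symm.trans h1)) ⟨ha, Ne.symm hua⟩
        (fun v hv => ReflTransGen.mono (fun p q h =>
          Or.inl ⟨h.1, ⟨(supp _ _ h.1).1, h.2.1⟩, ⟨(supp _ _ h.1).2, h.2.2⟩⟩) _ _
          (hav u v hua hv.2 hv.1))
        (fun v hv hva => by
          by_cases hvt : v = t
          · subst hvt
            exact ⟨s, w, hws.symm, Or.inl ⟨hts, hv, ⟨hsS, hsu⟩⟩, Or.inr ⟨rfl, rfl⟩⟩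
          · obtain ⟨p, q, hpq, hp, hq, _⟩ := hout v hv.1 hva
            have h1 : p ≠ u := fun e => hvt (huniq v (e ▸ hp))
            have h2 : q ≠ u := fun e => hvt (huniq v (e ▸ hq))
            exact ⟨p, q, hpq, Or.inl ⟨hp, hv, ⟨(supp _ _ hp).2, h1⟩⟩,
              Or.inl ⟨hq, hv, ⟨(supp _ _ hq).2, h2⟩⟩⟩)
        (by
          have h1 : a₁ ≠ u := fun e => hta (huniq a (e ▸ haa₁)).symm
          exact ⟨a₁, Or.inl ⟨haa₁, ⟨ha, Ne.symm hua⟩, ⟨ha₁S, h1⟩⟩⟩)
      have hb' : HasK3 (fun p q => (Res E (S \ {u}) p q ∨ (p = a ∧ q = b)) ∨ (p = t ∧ q = w))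
          (S \ {u}) := by
        refine hb.mono ?_ (subset_refl _)
        rintro p q _ _ _ ((h | h) | h)
        · exact Or.inl (Or.inl h)
        · exact Or.inr h
        · exact Or.inl (Or.inr h)
      refine ⟨b, ?_⟩
      refine HasK3.lift hb' ?_ [u] ?_ (by simp) ?_ (fun s hs => hs.1) ?_
      · rintro p q _ _ _ (h | h)
        · exact Or.inl h.1
        · exact Or.inr h
      · simp [htu, huw]
      · intro z hz h
        simp at hz
        exact h.2 hz
      · intro z hz
        simp at hz
        rw [hz]; exact huS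
    · push Not at hw
      have hut : E u t ∧ E u s := by
        obtain ⟨p, q, hpq, hp, hq, _⟩ := hout u huS hua
        by_cases h1 : p = t
        · subst h1
          have := hw q hq hpq.symm
          subst this
          exact ⟨hp, hq⟩
        · have h2 := hw p hp h1
          subst h2
          by_cases h3 : q = t
          · subst h3; exact ⟨hq, hp⟩
          · exact absurd (hw q hq h3).symm hpq
      have hsa : s = a := by
        by_contra hsa
        have h1 := hav s t hsa hst.symm htS
        have h2 : ∀ x, ReflTransGen (fun p q => E p q ∧ p ≠ s ∧ q ≠ s) t x → x = t ∨ x = u := by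
          intro x hx
          induction hx with
          | refl => exact Or.inl rfl
          | @tail c d _ hcd ih =>
            rcases ih with rfl | rfl
            · rcases hts' d hcd.1 with e | e
              · exact Or.inr e
              · exact absurd e hcd.2.2
            · by_cases hdt : d = t
              · exact Or.inl hdt
              · exact absurd (hw d hcd.1 hdt) hcd.2.2
        rcases h2 a h1 with e | e
        · exact hta e.symm
        · exact hua e.symm
      subst hsa
      have hat : ReflTransGen (fun p q => E p q ∧ p ≠ u ∧ q ≠ u) s t := by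
        have key : ∀ x, ReflTransGen E s x →
            ReflTransGen (fun p q => E p q ∧ p ≠ u ∧ q ≠ u) s t ∨
            (x ≠ u ∧ ReflTransGen (fun p q => E p q ∧ p ≠ u ∧ q ≠ u) s x) := by
          intro x hx
          induction hx with
          | refl => exact Or.inr ⟨hsu, ReflTransGen.refl⟩
          | @tail c d _ hcd ih =>
            rcases ih with ih | ⟨hc, ih⟩
            · exact Or.inl ih
            · by_cases hdu : d = u
              · left
                rw [← huniq c (hdu ▸ hcd)]
                exact ih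
              · exact Or.inr ⟨hdu, ih.tail ⟨hcd, hc, hdu⟩⟩
        rcases key t (har t htS) with h | h
        · exact h
        · exact h.2
      obtain ⟨l, hl⟩ := exists_pth' hat hst
      have hul : u ∉ l := fun h =>
        hl.forall_int (P := fun z => z ≠ u) (fun p q h => h.2.2) u h rfl
      have hsl := hl.not_mem_left
      have htl := hl.not_mem_right
      have hnl := hl.nodup_int
      have hlS : ∀ z ∈ l, z ∈ S := hl.forall_int (fun p q h => (supp p q h.1).2)
      have hch : (s :: (l ++ [t])).IsChain E := hl.1.imp fun _ _ h => h.1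
      obtain ⟨hut, hus⟩ := hut
      refine ⟨u, ?_⟩
      refine HasK3.of_int ![s, t, u] ![![[], l, []], ![[], [], []], ![[], [], []]]
        ?_ ?_ ?_ ?_ ?_ ?_ ?_
      · intro i j hij
        fin_cases i <;> fin_cases j <;> simp_all
      · intro i j hij
        fin_cases i <;> fin_cases j
        · exact absurd rfl hij
        · exact hch.imp (fun _ _ h => Or.inl h)
        · simp
        · simpa using Or.inl hts
        · exact absurd rfl hij
        · simpa using Or.inl htu
        · simpa using Or.inl hus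
        · simpa using Or.inl hut
        · exact absurd rfl hij
      · intro i j _
        fin_cases i <;> fin_cases j <;> simp <;> assumption
      · intro i j k _
        fin_cases i <;> fin_cases j <;> fin_cases k <;> simp <;> assumption
      · intro i j k l' hij hkl hne
        fin_cases i <;> fin_cases j <;> first | exact absurd rfl hij | skip
        all_goals fin_cases k <;> fin_cases l' <;>
          first | exact absurd rfl hkl | exact absurd rfl hne | skip
        all_goals simp
      · intro k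
        fin_cases k <;> simp <;> assumption
      · intro i j _
        fin_cases i <;> fin_cases j <;> simp <;> assumption

end Pool.Agent.Mader
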