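import Pool.Agent.Mader4.App

set_option autoImplicit false

namespace Pool.Agent.Mader

open List Relation

variable {V : Type*}

/-- A counterexample `E` on the vertex set `S` of minimum order. -/
structure MinCex (E : V → V → Prop) (S : Set V) : Prop where
  supp : ∀ p q, E p q → p ∈ S ∧ q ∈ S
  loop : ∀ p, ¬ E p p
  nok : ¬ HasK3 E S
  ncol : ¬ Col E 3
  ih : ∀ (E' : V → V → Prop) (S' : Set V), S'.ncard < S.ncard →
    (∀ p q, E' p q → p ∈ S' ∧ q ∈ S') → (∀ p, ¬ E' p p) → ¬ HasK3 E' S' → Col E' 3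

theorem MinCex.strong [Finite V] {E : V → V → Prop} {S : Set V} (h : MinCex E S) {p q : V}
    (hp : p ∈ S) (hq : q ∈ S) : ReflTransGen E p q := by
  refine strong_of_critical h.supp h.ncol ?_ hp hq
  intro T hT
  refine h.ih (Res E T) T (Set.ncard_lt_ncard hT (Set.toFinite _)) (fun p q h => h.2)
    (fun p hp => h.loop p hp.1) ?_
  intro hk
  exact h.nok (hk.mono (fun a b _ _ _ hab => hab.1) hT.1)

/-- Existence of a minimum counterexample. -/
theorem exists_minCex [Finite V] {E : V → V → Prop} (hloop : ∀ p, ¬ E p p)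
    (hno : ¬ HasK3 E Set.univ) (hcol : ¬ Col E 3) :
    ∃ (E' : V → V → Prop) (S' : Set V), MinCex E' S' := by
  classical
  have key : ∀ (n : ℕ) (E : V → V → Prop) (S : Set V), S.ncard = n →
      (∀ p q, E p q → p ∈ S ∧ q ∈ S) → (∀ p, ¬ E p p) → ¬ HasK3 E S → ¬ Col E 3 →
      ∃ (E' : V → V → Prop) (S' : Set V), MinCex E' S' := by
    intro n
    induction n using Nat.strong_induction_on with
    | _ n IH =>
      intro E S hn h1 h2 h3 h4
      by_cases h : ∀ (E' : V → V → Prop) (S' : Set V), S'.ncard < S.ncard →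
          (∀ p q, E' p q → p ∈ S' ∧ q ∈ S') → (∀ p, ¬ E' p p) → ¬ HasK3 E' S' → Col E' 3
      · exact ⟨E, S, h1, h2, h3, h4, h⟩
      · push Not at h
        obtain ⟨E', S', hlt, g1, g2, g3, g4⟩ := h
        exact IH S'.ncard (hn ▸ hlt) E' S' rfl g1 g2 g3 g4
  exact key _ E Set.univ rfl (fun p q _ => ⟨trivial, trivial⟩) hloop hno hcol

/-- **Main theorem**, with the three ingredients as hypotheses. -/
theorem col_three_of [Finite V]
    (t6 : ∀ (E : V → V → Prop) (S : Set V) (a : V), (∀ p q, E p q → p ∈ S ∧ q ∈ S) →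
      (∀ p, ¬ E p p) → a ∈ S → (∀ v ∈ S, ReflTransGen E v a) →
      (∀ v ∈ S, v ≠ a → ∃ p q, p ≠ q ∧ E v p ∧ E v q) → (∃ p, E a p) → Good E S a)
    (two_strong : ∀ (E : V → V → Prop) (S : Set V), MinCex E S → ∀ p q z : V, p ∈ S → q ∈ S →
      p ≠ z → q ≠ z → ReflTransGen (fun a b => E a b ∧ a ≠ z ∧ b ≠ z) p q)
    (lemF : ∀ (E : V → V → Prop) (S : Set V), (∀ p q, E p q → p ∈ S ∧ q ∈ S) →
      (∀ p, ¬ E p p) → (∀ p q z : V, p ∈ S → q ∈ S → z ∈ S →
      p ≠ z → q ≠ z → ReflTransGen (fun a b => E a b ∧ a ≠ z ∧ b ≠ z) p q) →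
      ¬ HasK3 E S → ∀ v ∈ S, ∀ u, ¬ TransGen (Res E {w | E v w}) u u)
    {E : V → V → Prop} (hloop : ∀ p, ¬ E p p) (hno : ¬ HasK3 E Set.univ) : Col E 3 := by
  by_contra hcol
  obtain ⟨E', S', h⟩ := exists_minCex hloop hno hcol
  apply h.ncol
  refine app h.supp h.loop (fun p hp q hq => h.strong hp hq) h.nok
    (lemF E' S' h.supp h.loop (fun p q z hp hq _ hpz hqz =>
      two_strong E' S' h p q z hp hq hpz hqz) h.nok) ?_
  intro X a hX ha hreach hdeg
  refine t6 (Res E' X) X a (fun p q h => h.2) (fun p hp => h.loop p hp.1) ha hreach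
    (fun v hv _ => hdeg v hv) ?_
  obtain ⟨p, _, _, hp, _⟩ := hdeg a ha
  exact ⟨p, hp⟩

end Pool.Agent.Mader
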