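import Pool.Agent.Mader4.Three

set_option autoImplicit false

namespace Pool.Agent.Mader

open List Relation

theorem zip_chain {V : Type*} {R : V → V → Prop} (l : List V) (a : V) :
    (∀ p ∈ (a :: l).zip l, R p.1 p.2) ↔ (a :: l).IsChain R := by
  induction l generalizing a with
  | nil => simp
  | cons b l ih =>
    rw [isChain_cons_cons, ← ih b]
    simp

theorem chain_transGen {V : Type*} {R : V → V → Prop} (l : List V) (a b : V)
    (h : (a :: (l ++ [b])).IsChain R) : TransGen R a b := by
  induction l generalizing a with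
  | nil => simp at h; exact TransGen.single h
  | cons c l ih =>
    rw [cons_append, isChain_cons_cons] at h
    exact TransGen.head h.1 (ih c h.2)

theorem exists_int {V : Type*} {L : List V} {a b : V} (h1 : L.head? = some a)
    (h2 : L.getLast? = some b) (hab : a ≠ b) : ∃ l, L = a :: (l ++ [b]) := by
  cases L with
  | nil => simp at h1
  | cons c L =>
    simp at h1
    subst h1
    rcases List.eq_nil_or_concat L with rfl | ⟨l, d, rfl⟩
    · simp at h2; exact absurd h2 hab
    · refine ⟨l, ?_⟩
      rw [concat_eq_append] at h2 ⊢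
      rw [show c :: (l ++ [d]) = (c :: l) ++ [d] by simp, getLast?_append_of_ne_nil _ (by simp)] at h2
      simp at h2
      rw [h2]

/-- Translation of a colouring theorem into the list form of the frozen statement. -/
theorem frozen_of_col {V : Type*} {k : ℕ} (D : Digraph V)
    (hmain : ¬ HasK3 D.Adj Set.univ → Col D.Adj k)
    (hno : ¬ ∃ (a b c : V) (l₁ l₂ l₃ l₄ l₅ l₆ : List V),
      ([a, b, c] ++ l₁ ++ l₂ ++ l₃ ++ l₄ ++ l₅ ++ l₆).Nodup ∧
      (∀ p ∈ (a :: l₁ ++ [b]).zip (l₁ ++ [b]), D.Adj p.1 p.2) ∧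
      (∀ p ∈ (b :: l₂ ++ [a]).zip (l₂ ++ [a]), D.Adj p.1 p.2) ∧
      (∀ p ∈ (b :: l₃ ++ [c]).zip (l₃ ++ [c]), D.Adj p.1 p.2) ∧
      (∀ p ∈ (c :: l₄ ++ [b]).zip (l₄ ++ [b]), D.Adj p.1 p.2) ∧
      (∀ p ∈ (a :: l₅ ++ [c]).zip (l₅ ++ [c]), D.Adj p.1 p.2) ∧
      (∀ p ∈ (c :: l₆ ++ [a]).zip (l₆ ++ [a]), D.Adj p.1 p.2)) :
    ∃ f : V → Fin k, ∀ (v : V) (l : List V),
      (∀ p ∈ (v :: l ++ [v]).zip (l ++ [v]), D.Adj p.1 p.2) → ∃ w ∈ l, f w ≠ f v := by
  obtain ⟨f, hf⟩ : Col D.Adj k := by
    refine hmain ?_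
    rintro ⟨β, L, h⟩
    apply hno
    have hint : ∀ i j : Fin 3, i ≠ j → ∃ l, L i j = β i :: (l ++ [β j]) := fun i j hij =>
      exists_int (h.head i j hij) (h.last i j hij) (fun e => hij (h.inj e))
    choose! p hp using hint
    have hch : ∀ i j : Fin 3, i ≠ j →
        (∀ t ∈ (β i :: p i j ++ [β j]).zip (p i j ++ [β j]), D.Adj t.1 t.2) := by
      intro i j hij
      have := h.chain i j hij
      rw [hp i j hij, ← zip_chain] at this
      exact this
    have hnd : ∀ i j : Fin 3, i ≠ j → (p i j).Nodup := by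
      intro i j hij
      have := h.nodup i j hij
      rw [hp i j hij, nodup_cons] at this
      exact (nodup_append.1 this.2).1
    have hav : ∀ i j k : Fin 3, i ≠ j → β k ∉ p i j := by
      intro i j k hij hk
      have hmem : β k ∈ L i j := by rw [hp i j hij]; simp [hk]
      have hn := h.nodup i j hij
      rw [hp i j hij] at hn
      rcases h.br i j k hij hmem with rfl | rfl
      · rw [nodup_cons] at hn
        exact hn.1 (by simp [hk])
      · rw [nodup_cons] at hn
        exact (nodup_append.1 hn.2).2.2 _ hk _ (by simp) rfl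
    have hdj : ∀ i j k l : Fin 3, i ≠ j → k ≠ l → (i, j) ≠ (k, l) → ∀ z ∈ p i j, z ∉ p k l := by
      intro i j k l hij hkl hne z hz hz'
      obtain ⟨m, rfl⟩ := h.disj i j k l z hij hkl hne (by rw [hp i j hij]; simp [hz])
        (by rw [hp k l hkl]; simp [hz'])
      exact hav i j m hij hz
    refine ⟨β 0, β 1, β 2, p 0 1, p 1 0, p 1 2, p 2 1, p 0 2, p 2 0, ?_, hch 0 1 (by decide),
      hch 1 0 (by decide), hch 1 2 (by decide), hch 2 1 (by decide), hch 0 2 (by decide),
      hch 2 0 (by decide)⟩
    have hβ : ∀ i j : Fin 3, i ≠ j → β i ≠ β j := fun i j hij e => hij (h.inj e)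
    have key : ∀ (l m : List V), l.Nodup → m.Nodup → (∀ z ∈ m, z ∉ l) → (l ++ m).Nodup := by
      intro l m h1 h2 h3
      rw [nodup_append]
      exact ⟨h1, h2, fun a ha b hb e => h3 b hb (e ▸ ha)⟩
    have hdj' : ∀ i j k l : Fin 3, i ≠ j → k ≠ l → (i, j) ≠ (k, l) → ∀ z ∈ p i j, z ∉ p k l := hdj
    have hz3 : ∀ i j : Fin 3, i ≠ j → ∀ z ∈ p i j, z ∉ [β 0, β 1, β 2] := by
      intro i j hij z hz hz'
      simp only [mem_cons, not_mem_nil, or_false] at hz'
      rcases hz' with rfl | rfl | rfl
      · exact hav i j 0 hij hz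
      · exact hav i j 1 hij hz
      · exact hav i j 2 hij hz
    refine key _ _ (key _ _ (key _ _ (key _ _ (key _ _ (key _ _ ?_ (hnd 0 1 (by decide)) ?_)
      (hnd 1 0 (by decide)) ?_) (hnd 1 2 (by decide)) ?_) (hnd 2 1 (by decide)) ?_)
      (hnd 0 2 (by decide)) ?_) (hnd 2 0 (by decide)) ?_
    · have h01 := hβ 0 1 (by decide)
      have h02 := hβ 0 2 (by decide)
      have h12 := hβ 1 2 (by decide)
      simp [h01, h02, h12]
    · exact hz3 0 1 (by decide)
    · intro z hz hz'
      rcases mem_append.1 hz' with hz' | hz'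
      · exact hz3 1 0 (by decide) z hz hz'
      · exact hdj 1 0 0 1 (by decide) (by decide) (by decide) z hz hz'
    · intro z hz hz'
      simp only [mem_append] at hz'
      rcases hz' with (hz' | hz') | hz'
      · exact hz3 1 2 (by decide) z hz hz'
      · exact hdj 1 2 0 1 (by decide) (by decide) (by decide) z hz hz'
      · exact hdj 1 2 1 0 (by decide) (by decide) (by decide) z hz hz'
    · intro z hz hz'
      simp only [mem_append] at hz'
      rcases hz' with ((hz' | hz') | hz') | hz'
      · exact hz3 2 1 (by decide) z hz hz'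
      · exact hdj 2 1 0 1 (by decide) (by decide) (by decide) z hz hz'
      · exact hdj 2 1 1 0 (by decide) (by decide) (by decide) z hz hz'
      · exact hdj 2 1 1 2 (by decide) (by decide) (by decide) z hz hz'
    · intro z hz hz'
      simp only [mem_append] at hz'
      rcases hz' with (((hz' | hz') | hz') | hz') | hz'
      · exact hz3 0 2 (by decide) z hz hz'
      · exact hdj 0 2 0 1 (by decide) (by decide) (by decide) z hz hz'
      · exact hdj 0 2 1 0 (by decide) (by decide) (by decide) z hz hz'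
      · exact hdj 0 2 1 2 (by decide) (by decide) (by decide) z hz hz'
      · exact hdj 0 2 2 1 (by decide) (by decide) (by decide) z hz hz'
    · intro z hz hz'
      simp only [mem_append] at hz'
      rcases hz' with ((((hz' | hz') | hz') | hz') | hz') | hz'
      · exact hz3 2 0 (by decide) z hz hz'
      · exact hdj 2 0 0 1 (by decide) (by decide) (by decide) z hz hz'
      · exact hdj 2 0 1 0 (by decide) (by decide) (by decide) z hz hz'
      · exact hdj 2 0 1 2 (by decide) (by decide) (by decide) z hz hz'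
      · exact hdj 2 0 2 1 (by decide) (by decide) (by decide) z hz hz'
      · exact hdj 2 0 0 2 (by decide) (by decide) (by decide) z hz hz'
  refine ⟨f, ?_⟩
  intro v l hl
  by_contra hcon
  push Not at hcon
  apply hf v
  refine chain_transGen l v v ?_
  have h1 : (v :: (l ++ [v])).IsChain D.Adj := (zip_chain (l ++ [v]) v).1 hl
  refine h1.imp_of_mem_imp ?_
  intro a b ha hb hab
  refine ⟨hab, ?_⟩
  have hc : ∀ t ∈ v :: (l ++ [v]), f t = f v := by
    intro t ht
    simp only [mem_cons, mem_append, not_mem_nil, or_false] at ht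
    rcases ht with h | h | h
    · rw [h]
    · exact hcon t h
    · rw [h]
  rw [hc a ha, hc b hb]

end Pool.Agent.Mader
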